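import Pool.Agent.Helper38.Curl.Rep

/-!
MP_9cc3a3_an, packet C-CUT: cutting off a solenoidal field.
-/

set_option autoImplicit false

open MeasureTheory Set Filter Topology Metric
open scoped ContDiff RealInnerProductSpace
open Pool.Agent.Helper38.Curl

namespace Pool.Agent.Helper10.Curl

/-! ### a Riesz lemma -/

theorem riesz {V H : Type*} [AddCommGroup V] [Module ℝ V] [NormedAddCommGroup H]
    [InnerProductSpace ℝ H] [CompleteSpace H] (T : V →ₗ[ℝ] H) (ℓ : V →ₗ[ℝ] ℝ) (M : ℝ)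
    (hM : 0 ≤ M) (h : ∀ v, |ℓ v| ≤ M * ‖T v‖) :
    ∃ Y : H, ‖Y‖ ≤ M ∧ ∀ v, ⟪Y, T v⟫ = ℓ v := by
  have hker : LinearMap.ker T ≤ LinearMap.ker ℓ := by
    intro v hv
    rw [LinearMap.mem_ker] at hv ⊢
    have h1 := h v
    rw [hv, norm_zero, mul_zero] at h1
    exact abs_nonpos_iff.1 h1
  set ℓ' : LinearMap.range T →ₗ[ℝ] ℝ :=
    ((LinearMap.ker T).liftQ ℓ hker) ∘ₗ (T.quotKerEquivRange.symm : _ →ₗ[ℝ] _) with hℓ'
  have h1 : ∀ v, ℓ' ⟨T v, LinearMap.mem_range_self T v⟩ = ℓ v := by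
    intro v
    have e : T.quotKerEquivRange.symm ⟨T v, LinearMap.mem_range_self T v⟩ =
        Submodule.Quotient.mk v := by
      rw [LinearEquiv.symm_apply_eq]
      rfl
    rw [hℓ', LinearMap.comp_apply]
    show ((LinearMap.ker T).liftQ ℓ hker)
      (T.quotKerEquivRange.symm ⟨T v, LinearMap.mem_range_self T v⟩) = ℓ v
    rw [e]
    rfl
  have h2 : ∀ w : LinearMap.range T, ‖ℓ' w‖ ≤ M * ‖w‖ := by
    rintro ⟨w, v, rfl⟩
    rw [h1, Real.norm_eq_abs]
    exact h v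
  obtain ⟨g, hg, hgn⟩ := exists_extension_norm_eq (LinearMap.range T) (ℓ'.mkContinuous M h2)
  refine ⟨(InnerProductSpace.toDual ℝ H).symm g, ?_, ?_⟩
  · rw [LinearIsometryEquiv.norm_map, hgn]
    exact LinearMap.mkContinuous_norm_le _ hM h2
  · intro v
    rw [InnerProductSpace.toDual_symm_apply, ← h1 v]
    exact hg ⟨T v, LinearMap.mem_range_self T v⟩

/-! ### integrability -/

section

variable {z : E} {R : ℝ} {F : E → E}

theorem F_integrable (hF : MemLp F 2) (hF0 : ∀ y, y ∉ ball z R → F y = 0) : Integrable F := by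
  have hfin : IsFiniteMeasure (volume.restrict (ball z R)) :=
    ⟨by rw [Measure.restrict_apply_univ]; exact measure_ball_lt_top⟩
  have h1 : MemLp F 2 (volume.restrict (ball z R)) := hF.restrict _
  have h2 : IntegrableOn F (ball z R) :=
    (h1.mono_exponent (p := 1) (by norm_num)).integrable le_rfl
  have h3 : (ball z R).indicator F = F := by
    ext1 y
    by_cases hy : y ∈ ball z R
    · simp [hy]
    · simp [hy, hF0 y hy]
  rw [← h3]
  exact h2.integrable_indicator measurableSet_ball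

theorem int_FG (hF : MemLp F 2) (hF0 : ∀ y, y ∉ ball z R → F y = 0) {G : E → E}
    (hG : Continuous G) : Integrable (fun y => ⟪F y, G y⟫) := by
  obtain ⟨C, hC⟩ := (isCompact_closedBall z R).exists_bound_of_continuousOn hG.continuousOn
  have hFi := F_integrable hF hF0
  refine Integrable.mono' (g := fun y => C * ‖F y‖) (hFi.norm.const_mul C)
    (hFi.aestronglyMeasurable.inner hG.aestronglyMeasurable) (Eventually.of_forall fun y => ?_)
  by_cases hy : y ∈ ball z R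
  · have h1 := hC y (ball_subset_closedBall hy)
    calc ‖⟪F y, G y⟫‖ ≤ ‖F y‖ * ‖G y‖ := norm_inner_le_norm _ _
      _ ≤ ‖F y‖ * C := by gcongr
      _ = C * ‖F y‖ := mul_comm _ _
  · rw [hF0 y hy]; simp

/-- change of variables -/
theorem sq_dil (ψ : E → E) (z : E) {s : ℝ} (hs : 0 < s) :
    ∫ y, ‖ψ (z + (s ^ 2)⁻¹ • (y - z))‖ ^ 2 = s ^ 6 * sq ψ := by
  have h1 : ∫ y, ‖ψ (z + (s ^ 2)⁻¹ • (y - z))‖ ^ 2 = ∫ y, ‖ψ (z + (s ^ 2)⁻¹ • y)‖ ^ 2 :=
    integral_sub_right_eq_self (fun y => ‖ψ (z + (s ^ 2)⁻¹ • y)‖ ^ 2) z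
  have h2 : ∫ y, ‖ψ (z + (s ^ 2)⁻¹ • y)‖ ^ 2 =
      |((s ^ 2)⁻¹ ^ Module.finrank ℝ E)⁻¹| • ∫ y, ‖ψ (z + y)‖ ^ 2 :=
    Measure.integral_comp_smul volume (fun y => ‖ψ (z + y)‖ ^ 2) (s ^ 2)⁻¹
  have h3 : ∫ y, ‖ψ (z + y)‖ ^ 2 = sq ψ :=
    integral_add_left_eq_self (fun y => ‖ψ y‖ ^ 2) z
  rw [h1, h2, h3]
  have h4 : Module.finrank ℝ E = 3 := by simp [E]
  rw [h4, smul_eq_mul]
  congr 1
  rw [abs_of_pos (by positivity)]
  field_simp

theorem continuous_cr {X : Type*} [TopologicalSpace X] {a b : X → E} (ha : Continuous a)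
    (hb : Continuous b) : Continuous (fun x => cr (a x) (b x)) := by
  have ca : ∀ i : Fin 3, Continuous (fun x => a x i) := fun i =>
    (EuclideanSpace.proj i : E →L[ℝ] ℝ).continuous.comp ha
  have cb : ∀ i : Fin 3, Continuous (fun x => b x i) := fun i =>
    (EuclideanSpace.proj i : E →L[ℝ] ℝ).continuous.comp hb
  refine (PiLp.continuous_toLp 2 (fun _ : Fin 3 => ℝ)).comp (continuous_pi fun i => ?_)
  fin_cases i
  · exact ((ca 1).mul (cb 2)).sub ((ca 2).mul (cb 1))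
  · exact ((ca 2).mul (cb 0)).sub ((ca 0).mul (cb 2))
  · exact ((ca 0).mul (cb 1)).sub ((ca 1).mul (cb 0))

/-- the dilated point -/
noncomputable def dil (z : E) (s : ℝ) (y : E) : E := z + (s ^ 2)⁻¹ • (y - z)

theorem continuous_dil (z : E) (s : ℝ) : Continuous (dil z s) := by
  unfold dil
  fun_prop

noncomputable def gg (F : E → E) (z : E) (ψ : E → E) (s : ℝ) : ℝ :=
  ∫ y, ⟪F y, cr (y - z) (ψ (dil z s y))⟫

noncomputable def kk (F : E → E) (z : E) (ψ : E → E) (s : ℝ) : ℝ :=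
  2 * (s ^ 5)⁻¹ * gg F z ψ s

noncomputable def hh (F : E → E) (z : E) (φ : E → E) (s : ℝ) : ℝ :=
  (s ^ 2)⁻¹ * ∫ y, ⟪F y, φ (dil z s y)⟫

theorem sub_eq_dil (z : E) {s : ℝ} (hs : 0 < s) (y : E) : y - z = s ^ 2 • (dil z s y - z) := by
  unfold dil
  rw [add_sub_cancel_left, smul_smul, mul_inv_cancel₀ (by positivity), one_smul]

theorem norm_sub_le_of_dil {ψ : E → E} (hψ : tsupport ψ ⊆ ball z R) {s : ℝ} (hs : 0 < s) {y : E}
    (hy : ψ (dil z s y) ≠ 0) : ‖y - z‖ ≤ R * s ^ 2 := by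
  have h1 : dil z s y ∈ ball z R := hψ (subset_tsupport _ hy)
  rw [mem_ball_iff_norm] at h1
  rw [sub_eq_dil z hs y, norm_smul, Real.norm_of_nonneg (by positivity), mul_comm]
  gcongr

theorem test_dil_memLp {ψ : E → E} (hψc : Continuous ψ) (hψ : tsupport ψ ⊆ ball z R) {s : ℝ}
    (hs : 0 < s) : MemLp (fun y => ψ (dil z s y)) 2 := by
  apply (hψc.comp (continuous_dil z s)).memLp_of_hasCompactSupport
  apply HasCompactSupport.of_support_subset_isCompact (isCompact_closedBall z (R * s ^ 2))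
  intro y hy
  rw [mem_closedBall_iff_norm]
  exact norm_sub_le_of_dil hψ hs hy

theorem abs_gg_le (hR : 0 < R) (hF : MemLp F 2) {ψ : E → E} (hψc : Continuous ψ)
    (hψ : tsupport ψ ⊆ ball z R) {s : ℝ} (hs : 0 < s) :
    |gg F z ψ s| ≤ √(sq F) * (R * s ^ 5 * √(sq ψ)) := by
  set G : E → E := fun y => cr (y - z) (ψ (dil z s y)) with hG
  have hGc : Continuous G :=
    continuous_cr (continuous_id.sub continuous_const) (hψc.comp (continuous_dil z s))
  have hψL := test_dil_memLp hψc hψ hs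
  have hle : ∀ y, ‖G y‖ ≤ (R * s ^ 2) * ‖ψ (dil z s y)‖ := by
    intro y
    refine (norm_cr_le _ _).trans ?_
    by_cases h : ψ (dil z s y) = 0
    · rw [h]; simp
    · have := norm_sub_le_of_dil hψ hs h
      gcongr
  have hGL : MemLp G 2 := by
    refine (hψL.norm.const_mul (R * s ^ 2)).mono hGc.aestronglyMeasurable
      (Eventually.of_forall fun y => ?_)
    refine (hle y).trans ?_
    exact le_abs_self _
  have h1 := abs_ip_le hF hGL
  have h2 : sq G ≤ (R * s ^ 5) ^ 2 * sq ψ := by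
    have h3 : sq G ≤ ∫ y, (R * s ^ 2) ^ 2 * ‖ψ (dil z s y)‖ ^ 2 := by
      refine integral_mono (integrable_norm_sq hGL) ((integrable_norm_sq hψL).const_mul _) ?_
      intro y
      show ‖G y‖ ^ 2 ≤ (R * s ^ 2) ^ 2 * ‖ψ (dil z s y)‖ ^ 2
      rw [← mul_pow]
      exact pow_le_pow_left₀ (norm_nonneg _) (hle y) 2
    rw [integral_const_mul] at h3
    have h4 : ∫ y, ‖ψ (dil z s y)‖ ^ 2 = s ^ 6 * sq ψ := sq_dil ψ z hs
    rw [h4] at h3
    refine h3.trans (le_of_eq ?_)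
    ring
  have h5 : √(sq G) ≤ R * s ^ 5 * √(sq ψ) := by
    rw [← Real.sqrt_sq (show 0 ≤ R * s ^ 5 by positivity), ← Real.sqrt_mul (by positivity)]
    exact Real.sqrt_le_sqrt h2
  refine h1.trans ?_
  gcongr

theorem abs_kk_le (hR : 0 < R) (hF : MemLp F 2) {ψ : E → E} (hψc : Continuous ψ)
    (hψ : tsupport ψ ⊆ ball z R) {s : ℝ} (hs : 0 < s) :
    |kk F z ψ s| ≤ 2 * R * √(sq F) * √(sq ψ) := by
  unfold kk
  rw [abs_mul, abs_of_pos (by positivity : (0 : ℝ) < 2 * (s ^ 5)⁻¹)]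
  calc 2 * (s ^ 5)⁻¹ * |gg F z ψ s| ≤ 2 * (s ^ 5)⁻¹ * (√(sq F) * (R * s ^ 5 * √(sq ψ))) := by
        gcongr
        exact abs_gg_le hR hF hψc hψ hs
    _ = _ := by field_simp

theorem abs_hh_le (hF : MemLp F 2) {φ : E → E} (hφc : Continuous φ)
    (hφ : tsupport φ ⊆ ball z R) {s : ℝ} (hs : 0 < s) :
    |hh F z φ s| ≤ s * (√(sq F) * √(sq φ)) := by
  have hφL := test_dil_memLp hφc hφ hs
  have h1 := abs_ip_le hF hφL
  have h2 : sq (fun y => φ (dil z s y)) = s ^ 6 * sq φ := sq_dil φ z hs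
  have h3 : √(s ^ 6 * sq φ) = s ^ 3 * √(sq φ) := by
    rw [Real.sqrt_mul (by positivity), show s ^ 6 = (s ^ 3) ^ 2 by ring,
      Real.sqrt_sq (by positivity)]
  rw [h2, h3] at h1
  unfold hh
  rw [abs_mul, abs_of_pos (by positivity : (0 : ℝ) < (s ^ 2)⁻¹)]
  calc (s ^ 2)⁻¹ * |∫ y, ⟪F y, φ (dil z s y)⟫|
      ≤ (s ^ 2)⁻¹ * (√(sq F) * (s ^ 3 * √(sq φ))) := by gcongr; exact h1
    _ = _ := by field_simp

theorem continuousOn_gg (hF : MemLp F 2) (hF0 : ∀ y, y ∉ ball z R → F y = 0) {ψ : E → E}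
    (hψc : Continuous ψ) (hψs : HasCompactSupport ψ) : ContinuousOn (gg F z ψ) (Ioi 0) := by
  obtain ⟨C, hC⟩ := hψs.exists_bound_of_continuous hψc
  have hFi := F_integrable hF hF0
  refine continuousOn_of_dominated (bound := fun y => ‖F y‖ * (|R| * C)) ?_ ?_
    (hFi.norm.mul_const _) ?_
  · intro s _
    exact hFi.aestronglyMeasurable.inner (continuous_cr (continuous_id.sub continuous_const)
      (hψc.comp (continuous_dil z s))).aestronglyMeasurable
  · intro s _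
    refine Eventually.of_forall fun y => ?_
    by_cases hy : y ∈ ball z R
    · have h1 : ‖y - z‖ ≤ |R| := by
        rw [mem_ball_iff_norm] at hy
        exact hy.le.trans (le_abs_self _)
      calc ‖⟪F y, cr (y - z) (ψ (dil z s y))⟫‖ ≤ ‖F y‖ * ‖cr (y - z) (ψ (dil z s y))‖ :=
            norm_inner_le_norm _ _
        _ ≤ ‖F y‖ * (‖y - z‖ * ‖ψ (dil z s y)‖) := by gcongr; exact norm_cr_le _ _
        _ ≤ ‖F y‖ * (|R| * C) := by gcongr; exact hC _
    · rw [hF0 y hy]; simp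
  · refine Eventually.of_forall fun y => ?_
    have hinv : ContinuousOn (fun s : ℝ => (s ^ 2)⁻¹) (Ioi 0) := by
      apply ContinuousOn.inv₀ (continuousOn_id.pow 2)
      intro s hs
      have : (0 : ℝ) < s := hs
      show s ^ 2 ≠ 0
      positivity
    have h1 : ContinuousOn (fun s : ℝ => dil z s y) (Ioi 0) :=
      continuousOn_const.add (hinv.smul continuousOn_const)
    have h2 : Continuous (fun p : E => ⟪F y, cr (y - z) (ψ p)⟫) :=
      continuous_const.inner (continuous_cr continuous_const hψc)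
    exact h2.comp_continuousOn h1

theorem kk_intervalIntegrable (hR : 0 < R) (hF : MemLp F 2) (hF0 : ∀ y, y ∉ ball z R → F y = 0)
    {ψ : E → E} (hψc : Continuous ψ) (hψs : HasCompactSupport ψ) (hψ : tsupport ψ ⊆ ball z R) :
    IntervalIntegrable (kk F z ψ) volume 0 1 := by
  rw [intervalIntegrable_iff_integrableOn_Ioc_of_le zero_le_one]
  have hfin : IsFiniteMeasure (volume.restrict (Ioc (0 : ℝ) 1)) :=
    ⟨by rw [Measure.restrict_apply_univ]; simp⟩
  refine Integrable.of_bound (C := 2 * R * √(sq F) * √(sq ψ)) ?_ ?_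
  · have h1 : ContinuousOn (kk F z ψ) (Ioc 0 1) := by
      unfold kk
      refine ContinuousOn.mul ?_ ((continuousOn_gg hF hF0 hψc hψs).mono fun s hs => hs.1)
      apply ContinuousOn.mul continuousOn_const
      apply ContinuousOn.inv₀ (continuousOn_id.pow 5)
      intro s hs
      have : (0 : ℝ) < s := hs.1
      show s ^ 5 ≠ 0
      positivity
    exact h1.aestronglyMeasurable measurableSet_Ioc
  · rw [ae_restrict_iff' measurableSet_Ioc]
    refine Eventually.of_forall fun s hs => ?_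
    exact abs_kk_le hR hF hψc hψ hs.1

/-- derivative in the parameter -/
theorem hasDerivAt_hh (hF : MemLp F 2) (hF0 : ∀ y, y ∉ ball z R → F y = 0) {φ : E → E}
    (hφ : Test φ) {s₀ : ℝ} (hs : 0 < s₀) :
    HasDerivAt (hh F z φ) (-2 * (s₀ ^ 3)⁻¹ * (∫ y, ⟪F y, φ (dil z s₀ y)⟫)
      - 2 * (s₀ ^ 5)⁻¹ * ∫ y, ⟪F y, fderiv ℝ φ (dil z s₀ y) (y - z)⟫) s₀ := by
  have hφd : Differentiable ℝ φ := hφ.1.differentiable (by simp)
  have hφ'c : Continuous (fderiv ℝ φ) := hφ.1.continuous_fderiv (by simp)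
  obtain ⟨C, hC⟩ := (hφ.2.fderiv ℝ).exists_bound_of_continuous hφ'c
  have hC0 : 0 ≤ C := (norm_nonneg _).trans (hC 0)
  have hFi := F_integrable hF hF0
  set c : ℝ → ℝ := fun s => -2 * (s ^ 3)⁻¹ with hc
  have hcd : ∀ s, 0 < s → HasDerivAt (fun s : ℝ => (s ^ 2)⁻¹) (c s) s := by
    intro s hs
    have h1 : HasDerivAt (fun s : ℝ => s ^ 2) (2 * s) s := by
      simpa using hasDerivAt_pow 2 s
    have h2 := h1.inv (by positivity)
    refine h2.congr_deriv ?_
    rw [hc]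
    field_simp
  have hpd : ∀ y, ∀ s, 0 < s → HasDerivAt (fun s : ℝ => dil z s y) (c s • (y - z)) s := by
    intro y s hs
    have h1 := (hcd s hs).smul_const (y - z)
    exact h1.const_add z
  have hmain := hasDerivAt_integral_of_dominated_loc_of_deriv_le (μ := (volume : Measure E))
    (F := fun (s : ℝ) y => ⟪F y, φ (dil z s y)⟫)
    (F' := fun (s : ℝ) y => ⟪F y, fderiv ℝ φ (dil z s y) (c s • (y - z))⟫)
    (x₀ := s₀) (s := ball s₀ (s₀ / 2)) (bound := fun y => ‖F y‖ * (C * (16 * (s₀ ^ 3)⁻¹ * |R|)))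
    (ball_mem_nhds s₀ (by positivity)) ?_ ?_ ?_ ?_ (hFi.norm.mul_const _) ?_
  · have hI := hmain.2
    have h1 := (hcd s₀ hs).mul hI
    have e : ∫ y, ⟪F y, fderiv ℝ φ (dil z s₀ y) (c s₀ • (y - z))⟫ =
        c s₀ * ∫ y, ⟪F y, fderiv ℝ φ (dil z s₀ y) (y - z)⟫ := by
      rw [← integral_const_mul]
      congr 1
      ext y
      rw [map_smul, real_inner_smul_right]
    rw [e] at h1
    unfold hh
    refine h1.congr_deriv ?_
    rw [hc]
    field_simp
    ring
  · refine Eventually.of_forall fun s => ?_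
    exact hFi.aestronglyMeasurable.inner
      (hφ.1.continuous.comp (continuous_dil z s)).aestronglyMeasurable
  · exact int_FG hF hF0 (hφ.1.continuous.comp (continuous_dil z s₀))
  · exact hFi.aestronglyMeasurable.inner ((hφ'c.comp (continuous_dil z s₀)).clm_apply
      ((continuous_id.sub continuous_const).const_smul (c s₀))).aestronglyMeasurable
  · refine Eventually.of_forall fun y s hs' => ?_
    have hs1 : s₀ / 2 < s := by
      rw [mem_ball, Real.dist_eq, abs_lt] at hs'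
      linarith [hs'.1]
    have hs2 : 0 < s := by linarith
    by_cases hy : y ∈ ball z R
    · have h1 : ‖y - z‖ ≤ |R| := by
        rw [mem_ball_iff_norm] at hy
        exact hy.le.trans (le_abs_self _)
      have h2 : |c s| ≤ 16 * (s₀ ^ 3)⁻¹ := by
        rw [hc]
        simp only [neg_mul, abs_neg]
        rw [abs_of_pos (by positivity)]
        have h3 : (s₀ / 2) ^ 3 ≤ s ^ 3 := pow_le_pow_left₀ (by positivity) hs1.le 3
        have h4 : (s ^ 3)⁻¹ ≤ ((s₀ / 2) ^ 3)⁻¹ := inv_anti₀ (by positivity) h3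
        have h5 : ((s₀ / 2) ^ 3)⁻¹ = 8 * (s₀ ^ 3)⁻¹ := by
          field_simp
          norm_num
        rw [h5] at h4
        linarith
      calc ‖⟪F y, fderiv ℝ φ (dil z s y) (c s • (y - z))⟫‖
          ≤ ‖F y‖ * ‖fderiv ℝ φ (dil z s y) (c s • (y - z))‖ := norm_inner_le_norm _ _
        _ ≤ ‖F y‖ * (‖fderiv ℝ φ (dil z s y)‖ * ‖c s • (y - z)‖) := by
            gcongr; exact ContinuousLinearMap.le_opNorm _ _
        _ = ‖F y‖ * (‖fderiv ℝ φ (dil z s y)‖ * (|c s| * ‖y - z‖)) := by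
            rw [norm_smul, Real.norm_eq_abs]
        _ ≤ ‖F y‖ * (C * (16 * (s₀ ^ 3)⁻¹ * |R|)) := by
            gcongr
            exact hC _
    · rw [hF0 y hy]; simp
  · refine Eventually.of_forall fun y s hs' => ?_
    have hs1 : s₀ / 2 < s := by
      rw [mem_ball, Real.dist_eq, abs_lt] at hs'
      linarith [hs'.1]
    have hs2 : 0 < s := by linarith
    have h1 : HasDerivAt (fun s => φ (dil z s y)) (fderiv ℝ φ (dil z s y) (c s • (y - z))) s :=
      (hφd (dil z s y)).hasFDerivAt.comp_hasDerivAt s (hpd y s hs2)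
    have h2 := (hasDerivAt_const s (F y)).inner ℝ h1
    simpa using h2

/-- the derivative is the kernel of the radial homotopy -/
theorem deriv_eq_kk (hF : MemLp F 2) (hF0 : ∀ y, y ∉ ball z R → F y = 0)
    (hdiv : ∀ η, TestFIn (ball z R) η → ∫ x, fderiv ℝ η x (F x) = 0) {φ : E → E}
    (hφ : TestIn (ball z R) φ) {s : ℝ} (hs : 0 < s) (hs1 : s ≤ 1) :
    -2 * (s ^ 3)⁻¹ * (∫ y, ⟪F y, φ (dil z s y)⟫)
      - 2 * (s ^ 5)⁻¹ * (∫ y, ⟪F y, fderiv ℝ φ (dil z s y) (y - z)⟫) = kk F z (curl φ) s := by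
  have hφd : Differentiable ℝ φ := hφ.1.1.differentiable (by simp)
  have hφ'c : Continuous (fderiv ℝ φ) := hφ.1.1.continuous_fderiv (by simp)
  -- the test function
  have hdilc : ContDiff ℝ ∞ (dil z s) := by
    unfold dil
    fun_prop
  have hdild : ∀ y, HasFDerivAt (dil z s) ((s ^ 2)⁻¹ • ContinuousLinearMap.id ℝ E) y := by
    intro y
    have h1 : HasFDerivAt (fun y : E => y - z) (ContinuousLinearMap.id ℝ E) y :=
      (hasFDerivAt_id y).sub_const z
    exact (h1.const_smul ((s ^ 2)⁻¹)).const_add z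
  set Qf : E → ℝ := fun y => ⟪y - z, φ (dil z s y)⟫ with hQ
  have hQc : ContDiff ℝ ∞ Qf :=
    (contDiff_id.sub contDiff_const).inner ℝ (hφ.1.1.comp hdilc)
  have hsupp : tsupport Qf ⊆ ball z R ∧ HasCompactSupport Qf := by
    have hK : IsCompact ((fun p => z + s ^ 2 • (p - z)) '' tsupport φ) :=
      hφ.1.2.isCompact.image (by fun_prop)
    have h1 : tsupport Qf ⊆ (fun p => z + s ^ 2 • (p - z)) '' tsupport φ := by
      apply closure_minimal _ hK.isClosed
      intro y hy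
      have h2 : φ (dil z s y) ≠ 0 := by
        intro h0
        apply hy
        simp only [hQ, h0, inner_zero_right]
      refine ⟨dil z s y, subset_tsupport _ h2, ?_⟩
      simp only
      rw [← sub_eq_dil z hs y]
      abel
    refine ⟨?_, hK.of_isClosed_subset (isClosed_tsupport _) h1⟩
    intro y hy
    obtain ⟨p, hp, rfl⟩ := h1 hy
    have h3 : p ∈ ball z R := hφ.2 hp
    rw [mem_ball_iff_norm] at h3 ⊢
    rw [add_sub_cancel_left, norm_smul, Real.norm_of_nonneg (by positivity)]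
    calc s ^ 2 * ‖p - z‖ ≤ 1 * ‖p - z‖ := by
          gcongr
          exact pow_le_one₀ hs.le hs1
      _ < R := by rwa [one_mul]
  have hQd : ∀ y w, fderiv ℝ Qf y w =
      ⟪w, φ (dil z s y)⟫ + (s ^ 2)⁻¹ * ⟪y - z, fderiv ℝ φ (dil z s y) w⟫ := by
    intro y w
    have h1 : HasFDerivAt (fun y => φ (dil z s y))
        ((fderiv ℝ φ (dil z s y)).comp ((s ^ 2)⁻¹ • ContinuousLinearMap.id ℝ E)) y :=
      (hφd (dil z s y)).hasFDerivAt.comp y (hdild y)
    have h2 : HasFDerivAt (fun y : E => y - z) (ContinuousLinearMap.id ℝ E) y :=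
      (hasFDerivAt_id y).sub_const z
    have h3 := (h2.inner ℝ h1).fderiv
    rw [hQ, h3]
    simp only [ContinuousLinearMap.comp_apply, ContinuousLinearMap.prod_apply,
      smul_apply, ContinuousLinearMap.id_apply, fderivInnerCLM_apply,
      map_smul, real_inner_smul_right]
    ring
  have h0 := hdiv Qf ⟨⟨hQc, hsupp.2⟩, hsupp.1⟩
  simp only [hQd] at h0
  have i1 : Integrable (fun y => ⟪F y, φ (dil z s y)⟫) :=
    int_FG hF hF0 (hφ.1.1.continuous.comp (continuous_dil z s))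
  have i2 : Integrable (fun y => ⟪F y, fderiv ℝ φ (dil z s y) (y - z)⟫) :=
    int_FG hF hF0 ((hφ'c.comp (continuous_dil z s)).clm_apply
      (continuous_id.sub continuous_const))
  have hpt : ∀ y, ⟪F y, cr (y - z) (curl φ (dil z s y))⟫ =
      ⟪y - z, fderiv ℝ φ (dil z s y) (F y)⟫ - ⟪F y, fderiv ℝ φ (dil z s y) (y - z)⟫ := by
    intro y
    have h1 := inner_fderiv_sub φ (dil z s y) (F y) (y - z)
    rw [← inner_cr, real_inner_comm, ← h1, real_inner_comm (y - z), real_inner_comm (F y)]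
  have i3 : Integrable (fun y => ⟪F y, cr (y - z) (curl φ (dil z s y))⟫) :=
    int_FG hF hF0 (continuous_cr (continuous_id.sub continuous_const)
      ((contDiff_curl hφ.1.1).continuous.comp (continuous_dil z s)))
  have i4 : Integrable (fun y => ⟪y - z, fderiv ℝ φ (dil z s y) (F y)⟫) := by
    have h1 := i3.add i2
    refine h1.congr (Eventually.of_forall fun y => ?_)
    simp only [Pi.add_apply, hpt]
    ring
  have e1 : gg F z (curl φ) s = (∫ y, ⟪y - z, fderiv ℝ φ (dil z s y) (F y)⟫) -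
      ∫ y, ⟪F y, fderiv ℝ φ (dil z s y) (y - z)⟫ := by
    unfold gg
    simp only [hpt]
    exact integral_sub i4 i2
  rw [integral_add i1 (i4.const_mul _), integral_const_mul] at h0
  unfold kk
  rw [e1]
  have e2 : (∫ y, ⟪y - z, fderiv ℝ φ (dil z s y) (F y)⟫) =
      - s ^ 2 * ∫ y, ⟪F y, φ (dil z s y)⟫ := by
    field_simp at h0
    linarith
  rw [e2]
  field_simp

theorem ell_curl (hR : 0 < R) (hF : MemLp F 2) (hF0 : ∀ y, y ∉ ball z R → F y = 0)
    (hdiv : ∀ η, TestFIn (ball z R) η → ∫ x, fderiv ℝ η x (F x) = 0) {φ : E → E}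
    (hφ : TestIn (ball z R) φ) : ∫ s in (0 : ℝ)..1, kk F z (curl φ) s = ip F φ := by
  have hderiv : ∀ s ∈ Ioo (0 : ℝ) 1, HasDerivAt (hh F z φ) (kk F z (curl φ) s) s := by
    intro s hs
    rw [← deriv_eq_kk hF hF0 hdiv hφ hs.1 hs.2.le]
    exact hasDerivAt_hh hF hF0 hφ.1 hs.1
  have h00 : hh F z φ 0 = 0 := by
    unfold hh
    simp
  have hcont : ContinuousOn (hh F z φ) (Icc 0 1) := by
    intro s hs
    rcases hs.1.lt_or_eq with h | h
    · exact (hasDerivAt_hh hF hF0 hφ.1 h).continuousAt.continuousWithinAt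
    · subst h
      rw [ContinuousWithinAt, h00]
      have h1 : Tendsto (fun s : ℝ => s * (√(sq F) * √(sq φ))) (𝓝[Icc 0 1] 0) (𝓝 0) := by
        have h2 : Tendsto (fun s : ℝ => s * (√(sq F) * √(sq φ))) (𝓝 0)
            (𝓝 (0 * (√(sq F) * √(sq φ)))) := tendsto_id.mul_const _
        rw [zero_mul] at h2
        exact h2.mono_left nhdsWithin_le_nhds
      refine squeeze_zero_norm' ?_ h1
      filter_upwards [self_mem_nhdsWithin] with s hs
      rcases hs.1.lt_or_eq with h | h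
      · exact abs_hh_le hF hφ.1.1.continuous hφ.2 h
      · subst h
        rw [h00]
        simp
  have hint := kk_intervalIntegrable (ψ := curl φ) hR hF hF0 (contDiff_curl hφ.1.1).continuous
    hφ.1.curl.2 ((tsupport_curl_subset φ).trans hφ.2)
  rw [intervalIntegral.integral_eq_sub_of_hasDerivAt_of_le zero_le_one hcont hderiv hint, h00]
  unfold hh ip dil
  simp

end

/-- test fields in a set, as a subspace -/
def VT (U : Set E) : Submodule ℝ (E → E) where
  carrier := {ψ | TestIn U ψ}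
  add_mem' := by
    rintro a b ⟨⟨ha1, ha2⟩, ha3⟩ ⟨⟨hb1, hb2⟩, hb3⟩
    refine ⟨⟨ha1.add hb1, ha2.add hb2⟩, ?_⟩
    exact (tsupport_add a b).trans (union_subset ha3 hb3)
  zero_mem' := by
    refine ⟨⟨contDiff_const, HasCompactSupport.zero⟩, ?_⟩
    have : tsupport (0 : E → E) = ∅ := by simp [tsupport]
    rw [this]
    exact empty_subset _
  smul_mem' := by
    rintro c a ⟨⟨ha1, ha2⟩, ha3⟩
    refine ⟨⟨contDiff_const.smul ha1, ?_⟩, ?_⟩
    · exact ha2.smul_left (f := fun _ => c)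
    · exact (tsupport_smul_subset_right (fun _ => c) a).trans ha3

theorem radial {z : E} {R : ℝ} {F : E → E} (hR : 0 < R) (hF : MemLp F 2)
    (hF0 : ∀ y, y ∉ ball z R → F y = 0)
    (hdiv : ∀ η, TestFIn (ball z R) η → ∫ x, fderiv ℝ η x (F x) = 0) :
    ∃ Y : E → E, MemLp Y 2 ∧ sq Y ≤ 4 * R ^ 2 * sq F ∧
      ∀ φ, TestIn (ball z R) φ → ip Y (curl φ) = ip F φ := by
  set B := ball z R with hB
  have hkadd : ∀ ψ ψ' : E → E, Continuous ψ → Continuous ψ' → ∀ s,
      kk F z (ψ + ψ') s = kk F z ψ s + kk F z ψ' s := by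
    intro ψ ψ' h h' s
    unfold kk gg
    rw [← mul_add, ← integral_add]
    · congr 2
      ext y
      rw [Pi.add_apply, cr_add_right, inner_add_right]
    · exact int_FG hF hF0 (continuous_cr (continuous_id.sub continuous_const)
        (h.comp (continuous_dil z s)))
    · exact int_FG hF hF0 (continuous_cr (continuous_id.sub continuous_const)
        (h'.comp (continuous_dil z s)))
  have hksmul : ∀ (c : ℝ) (ψ : E → E) (s : ℝ), kk F z (c • ψ) s = c * kk F z ψ s := by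
    intro c ψ s
    unfold kk gg
    have : ∀ y, ⟪F y, cr (y - z) ((c • ψ) (dil z s y))⟫ =
        c * ⟪F y, cr (y - z) (ψ (dil z s y))⟫ := by
      intro y
      rw [Pi.smul_apply, cr_smul_right, real_inner_smul_right]
    simp only [this]
    rw [integral_const_mul]
    ring
  have hint : ∀ ψ : VT B, IntervalIntegrable (kk F z ψ) volume 0 1 := fun ψ =>
    kk_intervalIntegrable hR hF hF0 ψ.2.1.1.continuous ψ.2.1.2 ψ.2.2
  let T : VT B →ₗ[ℝ] Lp E 2 (volume : Measure E) :=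
    { toFun := fun ψ => (ψ.2.1.memLp).toLp ψ
      map_add' := fun ψ ψ' => MemLp.toLp_add _ _
      map_smul' := fun c ψ => MemLp.toLp_const_smul c _ }
  let ℓ : VT B →ₗ[ℝ] ℝ :=
    { toFun := fun ψ => ∫ s in (0 : ℝ)..1, kk F z ψ s
      map_add' := by
        intro ψ ψ'
        rw [← intervalIntegral.integral_add (hint ψ) (hint ψ')]
        congr 1
        ext s
        exact hkadd ψ ψ' ψ.2.1.1.continuous ψ'.2.1.1.continuous s
      map_smul' := by
        intro c ψ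
        rw [RingHom.id_apply, smul_eq_mul, ← intervalIntegral.integral_const_mul]
        congr 1
        ext s
        exact hksmul c ψ s }
  have hbd : ∀ ψ : VT B, |ℓ ψ| ≤ (2 * R * √(sq F)) * ‖T ψ‖ := by
    intro ψ
    have h1 : ‖∫ s in (0 : ℝ)..1, kk F z ψ s‖ ≤ 2 * R * √(sq F) * √(sq (ψ : E → E)) * |1 - 0| := by
      apply intervalIntegral.norm_integral_le_of_norm_le_const
      intro s hs
      rw [uIoc_of_le zero_le_one] at hs
      exact abs_kk_le hR hF ψ.2.1.1.continuous ψ.2.2 hs.1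
    have h2 : √(sq (ψ : E → E)) = ‖T ψ‖ := sqrt_sq_eq_norm ψ.2.1.memLp
    rw [h2, sub_zero, abs_one, mul_one] at h1
    exact h1
  obtain ⟨Y, hY, hYT⟩ := riesz T ℓ (2 * R * √(sq F)) (by positivity) hbd
  refine ⟨Y, Lp.memLp Y, ?_, ?_⟩
  · rw [sq_eq_norm (Lp.memLp Y), Lp.toLp_coeFn]
    calc ‖Y‖ ^ 2 ≤ (2 * R * √(sq F)) ^ 2 := pow_le_pow_left₀ (norm_nonneg _) hY 2
      _ = 4 * R ^ 2 * sq F := by
          rw [mul_pow, Real.sq_sqrt (sq_nonneg' F)]; ring
  · intro φ hφ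
    have h1 := hYT ⟨curl φ, hφ.curl⟩
    have h2 : ℓ ⟨curl φ, hφ.curl⟩ = ip F φ := ell_curl hR hF hF0 hdiv hφ
    rw [h2] at h1
    rw [ip_eq_inner (Lp.memLp Y) hφ.curl.1.memLp, Lp.toLp_coeFn]
    exact h1

/-! ### the cut-off -/

theorem aesm_cr {a b : E → E} (ha : AEStronglyMeasurable a volume)
    (hb : AEStronglyMeasurable b volume) :
    AEStronglyMeasurable (fun x => cr (a x) (b x)) volume := by
  have hc : Continuous (fun p : E × E => cr p.1 p.2) :=
    continuous_cr continuous_fst continuous_snd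
  exact hc.comp_aestronglyMeasurable (ha.prodMk hb)

/-- smooth cut-off functions at scale `τ` -/
theorem exists_zeta : ∃ C : ℝ, 0 ≤ C ∧ ∀ (z : E) (τ : ℝ), 0 < τ → ∃ ζ : E → ℝ, TestF ζ ∧
    tsupport ζ ⊆ ball z (2 * τ) ∧ (∀ x, |ζ x| ≤ 1) ∧ (∀ x, ‖gradient ζ x‖ ≤ C / τ) ∧
    (∀ x ∈ ball z τ, ζ x = 1 ∧ gradient ζ x = 0) := by
  let f : ContDiffBump (0 : E) := ⟨1, 3 / 2, by norm_num, by norm_num⟩
  have hfT : TestF (f : E → ℝ) := ⟨f.contDiff, f.hasCompactSupport⟩
  have hfc : Continuous (fderiv ℝ (f : E → ℝ)) := hfT.1.continuous_fderiv (by simp)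
  obtain ⟨C, hC⟩ := (hfT.2.fderiv ℝ).exists_bound_of_continuous hfc
  have hC0 : 0 ≤ C := (norm_nonneg _).trans (hC 0)
  refine ⟨C, hC0, fun z τ hτ => ?_⟩
  set ζ : E → ℝ := fun x => f (τ⁻¹ • (x - z)) with hζ
  have hζd : ∀ x, HasFDerivAt ζ ((fderiv ℝ (f : E → ℝ) (τ⁻¹ • (x - z))).comp
      (τ⁻¹ • ContinuousLinearMap.id ℝ E)) x := by
    intro x
    have h1 : HasFDerivAt (fun y : E => y - z) (ContinuousLinearMap.id ℝ E) x :=
      (hasFDerivAt_id x).sub_const z
    have h2 : DifferentiableAt ℝ (f : E → ℝ) (τ⁻¹ • (x - z)) :=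
      (hfT.1.differentiable (by simp)) _
    have h3 : HasFDerivAt (fun y : E => τ⁻¹ • (y - z)) (τ⁻¹ • ContinuousLinearMap.id ℝ E) x :=
      h1.const_smul τ⁻¹
    exact HasFDerivAt.comp (g := (f : E → ℝ)) x h2.hasFDerivAt h3
  have hsub : tsupport ζ ⊆ closedBall z (3 / 2 * τ) := by
    apply closure_minimal _ isClosed_closedBall
    intro x hx
    have h1 : τ⁻¹ • (x - z) ∈ Function.support (f : E → ℝ) := hx
    rw [f.support_eq, mem_ball_zero_iff, norm_smul, Real.norm_of_nonneg (by positivity)] at h1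
    rw [mem_closedBall_iff_norm]
    have h2 : τ⁻¹ * ‖x - z‖ < 3 / 2 := h1
    rw [inv_mul_lt_iff₀ hτ] at h2
    linarith
  refine ⟨ζ, ⟨?_, ?_⟩, ?_, ?_, ?_, ?_⟩
  · exact f.contDiff.comp (by fun_prop)
  · exact (isCompact_closedBall z _).of_isClosed_subset (isClosed_tsupport _) hsub
  · exact hsub.trans (closedBall_subset_ball (by linarith))
  · intro x
    rw [abs_of_nonneg f.nonneg]
    exact f.le_one
  · intro x
    have h1 : ‖gradient ζ x‖ = ‖fderiv ℝ ζ x‖ := by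
      unfold gradient
      rw [LinearIsometryEquiv.norm_map]
    rw [h1, (hζd x).fderiv]
    refine (ContinuousLinearMap.opNorm_comp_le _ _).trans ?_
    have h2 : ‖τ⁻¹ • ContinuousLinearMap.id ℝ E‖ ≤ τ⁻¹ := by
      rw [norm_smul, Real.norm_of_nonneg (by positivity)]
      calc τ⁻¹ * ‖ContinuousLinearMap.id ℝ E‖ ≤ τ⁻¹ * 1 := by
            gcongr; exact ContinuousLinearMap.norm_id_le
        _ = τ⁻¹ := mul_one _
    calc ‖fderiv ℝ (f : E → ℝ) (τ⁻¹ • (x - z))‖ * ‖τ⁻¹ • ContinuousLinearMap.id ℝ E‖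
        ≤ C * τ⁻¹ := by gcongr; exact hC _
      _ = C / τ := rfl
  · intro x hx
    have h1 : ∀ y ∈ ball z τ, ζ y = 1 := by
      intro y hy
      apply f.one_of_mem_closedBall
      rw [mem_closedBall_zero_iff, norm_smul, Real.norm_of_nonneg (by positivity)]
      rw [mem_ball_iff_norm] at hy
      show τ⁻¹ * ‖y - z‖ ≤ 1
      rw [inv_mul_le_iff₀ hτ, mul_one]
      exact hy.le
    refine ⟨h1 x hx, ?_⟩
    have h2 : ζ =ᶠ[𝓝 x] fun _ => 1 := by
      filter_upwards [isOpen_ball.mem_nhds hx] with y hy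
      exact h1 y hy
    unfold gradient
    rw [h2.fderiv_eq]
    simp

theorem cut_exists : ∃ C₀ : ℝ, 0 < C₀ ∧ ∀ (z : E) (τ : ℝ), 0 < τ → ∀ f : E → E,
    MemLp f 2 (volume.restrict (ball z (2 * τ))) → DivFreeIn (ball z (2 * τ)) f →
    ∃ a r, Pot a r ∧ VanOff (closedBall z (2 * τ)) r ∧ (∀ᵐ x, x ∈ ball z τ → r x = f x) ∧
      sq r ≤ C₀ * sqOn (ball z (2 * τ)) f := by
  obtain ⟨C, hC0, hζ⟩ := exists_zeta
  refine ⟨2 + 32 * C ^ 2, by positivity, ?_⟩
  intro z τ hτ f hf hdiv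
  obtain ⟨ζ, hζT, hζs, hζ1, hζg, hζb⟩ := hζ z τ hτ
  set B := ball z (2 * τ) with hB
  have hBm : MeasurableSet B := measurableSet_ball
  set F : E → E := B.indicator f with hFdef
  have hF : MemLp F 2 := memLp_ind hBm hf
  have hF0 : ∀ y, y ∉ ball z (2 * τ) → F y = 0 := by
    intro y hy
    simp [hFdef, hB, hy]
  have hdivF : ∀ η, TestFIn (ball z (2 * τ)) η → ∫ x, fderiv ℝ η x (F x) = 0 := by
    intro η hη
    rw [← hdiv η hη]
    congr 1
    ext x
    by_cases hx : x ∈ B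
    · simp [hFdef, hx]
    · have h1 : fderiv ℝ η x = 0 := by
        apply fderiv_of_notMem_tsupport
        exact fun h => hx (hη.2 h)
      rw [h1]
      simp
  obtain ⟨Y, hY, hYsq, hYw⟩ := radial (R := 2 * τ) (by positivity) hF hF0 hdivF
  have hζc : Continuous ζ := hζT.1.continuous
  have hgc : Continuous (gradient ζ) := hζT.gradient.1.continuous
  have hg0 : ∀ x, x ∉ B → ζ x = 0 ∧ gradient ζ x = 0 := by
    intro x hx
    have h1 : x ∉ tsupport ζ := fun h => hx (hζs h)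
    refine ⟨image_eq_zero_of_notMem_tsupport h1, ?_⟩
    exact image_eq_zero_of_notMem_tsupport fun h => h1 (tsupport_gradient_subset ζ h)
  -- integrability
  have mζ : ∀ {v : E → E}, MemLp v 2 → MemLp (fun x => ζ x • v x) 2 := by
    intro v hv
    refine hv.mono (hζc.aestronglyMeasurable.smul hv.aestronglyMeasurable)
      (Eventually.of_forall fun x => ?_)
    rw [norm_smul, Real.norm_eq_abs]
    exact mul_le_of_le_one_left (norm_nonneg _) (hζ1 x)
  have mcr : ∀ {v : E → E}, MemLp v 2 → MemLp (fun x => cr (gradient ζ x) (v x)) 2 := by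
    intro v hv
    refine (hv.norm.const_mul (C / τ)).mono (aesm_cr hgc.aestronglyMeasurable
      hv.aestronglyMeasurable) (Eventually.of_forall fun x => ?_)
    refine (norm_cr_le _ _).trans ?_
    refine le_trans ?_ (le_abs_self _)
    gcongr
    exact hζg x
  have hMa : MemLp (fun x => ζ x • Y x) 2 := mζ hY
  have hMr1 : MemLp (fun x => ζ x • F x) 2 := mζ hF
  have hMr2 : MemLp (fun x => cr (gradient ζ x) (Y x)) 2 := mcr hY
  have hMr : MemLp (fun x => ζ x • F x + cr (gradient ζ x) (Y x)) 2 := hMr1.add hMr2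
  have hva : VanOff (closedBall z (2 * τ)) (fun x => ζ x • Y x) := by
    refine Eventually.of_forall fun x hx => ?_
    have h1 : x ∉ B := fun h => hx (ball_subset_closedBall h)
    show ζ x • Y x = 0
    rw [(hg0 x h1).1, zero_smul]
  have hvr : VanOff (closedBall z (2 * τ)) (fun x => ζ x • F x + cr (gradient ζ x) (Y x)) := by
    refine Eventually.of_forall fun x hx => ?_
    have h1 : x ∉ B := fun h => hx (ball_subset_closedBall h)
    show ζ x • F x + cr (gradient ζ x) (Y x) = 0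
    rw [(hg0 x h1).1, (hg0 x h1).2, zero_smul, cr_zero_left, add_zero]
  have hsubR : closedBall z (2 * τ) ⊆ closedBall 0 (‖z‖ + 2 * τ) := by
    apply closedBall_subset_closedBall'
    rw [dist_zero_right]
    linarith
  refine ⟨fun x => ζ x • Y x, fun x => ζ x • F x + cr (gradient ζ x) (Y x),
    ⟨hMa, hMr, ⟨‖z‖ + 2 * τ, hva.mono hsubR, hvr.mono hsubR⟩, ?_⟩, hvr, ?_, ?_⟩
  · -- the weak curl
    intro φ hφ
    have hζφ : TestIn B (fun x => ζ x • φ x) := by
      refine ⟨⟨hζT.1.smul hφ.1, hφ.2.smul_left (f := ζ)⟩, ?_⟩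
      exact (tsupport_smul_subset_left ζ φ).trans hζs
    have hcurl : ∀ x, curl (fun y => ζ y • φ y) x = ζ x • curl φ x + cr (gradient ζ x) (φ x) :=
      fun x => curl_smul ((hζT.1.differentiable (by simp)) x) ((hφ.1.differentiable (by simp)) x)
    have e1 : ip (fun x => ζ x • Y x) (curl φ) =
        ip Y (fun x => curl (fun y => ζ y • φ y) x - cr (gradient ζ x) (φ x)) := by
      unfold ip
      congr 1
      ext x
      show ⟪ζ x • Y x, curl φ x⟫ =
        ⟪Y x, curl (fun y => ζ y • φ y) x - cr (gradient ζ x) (φ x)⟫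
      rw [hcurl, add_sub_cancel_right, real_inner_smul_left, real_inner_smul_right]
    have e2 := ip_sub_right hY hζφ.curl.1.memLp (mcr hφ.memLp)
    have e3 : ip F (fun x => ζ x • φ x) = ip (fun x => ζ x • F x) φ := by
      unfold ip
      congr 1
      ext x
      show ⟪F x, ζ x • φ x⟫ = ⟪ζ x • F x, φ x⟫
      rw [real_inner_smul_left, real_inner_smul_right]
    have e4 : ip Y (fun x => cr (gradient ζ x) (φ x)) =
        - ip (fun x => cr (gradient ζ x) (Y x)) φ := by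
      unfold ip
      rw [← integral_neg]
      congr 1
      ext x
      show ⟪Y x, cr (gradient ζ x) (φ x)⟫ = -⟪cr (gradient ζ x) (Y x), φ x⟫
      rw [← inner_cr, cr_comm (Y x), inner_neg_left]
    rw [e1, e2, hYw _ hζφ, e3, e4, ip_add_left hMr1 hMr2 hφ.memLp]
    ring
  · refine Eventually.of_forall fun x hx => ?_
    have h1 : x ∈ B := ball_subset_ball (by linarith) hx
    simp only [(hζb x hx).1, (hζb x hx).2, one_smul, cr_zero_left, add_zero, hFdef]
    simp [h1]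
  · have hsF : sq F = sqOn B f := (sqOn_eq_sq hBm f).symm
    have h1 : sq (fun x => ζ x • F x + cr (gradient ζ x) (Y x)) ≤
        ∫ x, (2 * ‖F x‖ ^ 2 + 2 * (C / τ) ^ 2 * ‖Y x‖ ^ 2) := by
      refine integral_mono (integrable_norm_sq hMr)
        (((integrable_norm_sq hF).const_mul 2).add
          ((integrable_norm_sq hY).const_mul (2 * (C / τ) ^ 2))) ?_
      intro x
      show ‖ζ x • F x + cr (gradient ζ x) (Y x)‖ ^ 2 ≤
        2 * ‖F x‖ ^ 2 + 2 * (C / τ) ^ 2 * ‖Y x‖ ^ 2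
      have h2 : ‖ζ x • F x‖ ≤ ‖F x‖ := by
        rw [norm_smul, Real.norm_eq_abs]
        exact mul_le_of_le_one_left (norm_nonneg _) (hζ1 x)
      have h3 : ‖cr (gradient ζ x) (Y x)‖ ≤ C / τ * ‖Y x‖ := by
        refine (norm_cr_le _ _).trans ?_
        gcongr
        exact hζg x
      have h4 : ‖ζ x • F x + cr (gradient ζ x) (Y x)‖ ≤ ‖F x‖ + C / τ * ‖Y x‖ :=
        (norm_add_le _ _).trans (add_le_add h2 h3)
      calc ‖ζ x • F x + cr (gradient ζ x) (Y x)‖ ^ 2 ≤ (‖F x‖ + C / τ * ‖Y x‖) ^ 2 :=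
            pow_le_pow_left₀ (norm_nonneg _) h4 2
        _ ≤ 2 * ‖F x‖ ^ 2 + 2 * (C / τ) ^ 2 * ‖Y x‖ ^ 2 := by
            nlinarith [sq_nonneg (‖F x‖ - C / τ * ‖Y x‖)]
    rw [integral_add ((integrable_norm_sq hF).const_mul 2)
      ((integrable_norm_sq hY).const_mul (2 * (C / τ) ^ 2)), integral_const_mul,
      integral_const_mul] at h1
    have h5 : 2 * (∫ x, ‖F x‖ ^ 2) + 2 * (C / τ) ^ 2 * ∫ x, ‖Y x‖ ^ 2 ≤
        (2 + 32 * C ^ 2) * sq F := by
      have h6 : (∫ x, ‖Y x‖ ^ 2) ≤ 4 * (2 * τ) ^ 2 * sq F := hYsq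
      have h7 : 2 * (C / τ) ^ 2 * (∫ x, ‖Y x‖ ^ 2) ≤ 2 * (C / τ) ^ 2 * (4 * (2 * τ) ^ 2 * sq F) := by
        gcongr
      have h8 : 2 * (C / τ) ^ 2 * (4 * (2 * τ) ^ 2 * sq F) = 32 * C ^ 2 * sq F := by
        field_simp
        ring
      have h9 : (∫ x, ‖F x‖ ^ 2) = sq F := rfl
      rw [h9]
      linarith
    rw [hsF] at h5
    exact h1.trans h5

end Pool.Agent.Helper10.Curl
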