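import Pool.Agent.Helper10.Curl.TubeA

/-!
MP_9cc3a3_an, packet C-TUBE: the tube field, main theorem.
-/

set_option autoImplicit false

open MeasureTheory Set Filter Topology Metric
open scoped ContDiff RealInnerProductSpace
open Pool.Agent.Helper38.Curl

namespace Pool.Agent.Helper10.Curl

section

variable {δ ε Q ρ R₁ R₂ N N₂ κ c G : ℝ} {χ β Γ : ℝ → ℝ}

theorem Prof.R10 (p : Prof δ ε Q ρ R₁ R₂ N N₂ κ c G χ β Γ) : 0 < R₁ := p.ρ0.trans_le p.ρR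
theorem Prof.N20 (p : Prof δ ε Q ρ R₁ R₂ N N₂ κ c G χ β Γ) : 0 < N₂ := p.N0.trans_le p.NN

variable {u w e : E}

/-- the potential -/
noncomputable def tb (u w e : E) (χ β Γ : ℝ → ℝ) (z : E) : E :=
  (χ ⟪e, z⟫ * β ⟪w, z⟫ * Γ ⟪u, z⟫) • w

theorem tb_test (F : Fr u w e) (p : Prof δ ε Q ρ R₁ R₂ N N₂ κ c G χ β Γ) :
    Test (tb u w e χ β Γ) := by
  refine ⟨?_, ?_⟩
  · exact ((((p.sχ.comp (contDiff_co e)).mul (p.sβ.comp (contDiff_co w))).mul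
      (p.sΓ.comp (contDiff_co u))).smul contDiff_const)
  · apply HasCompactSupport.of_support_subset_isCompact
      (F.bx_isCompact ![-R₁, -R₁, -N₂] ![Q + R₂, R₁, N₂]).1
    intro z hz
    by_contra hcon
    apply hz
    have h0 : χ ⟪e, z⟫ * β ⟪w, z⟫ * Γ ⟪u, z⟫ = 0 := by
      by_cases c1 : R₁ ≤ |⟪w, z⟫|
      · rw [p.β0 _ c1]; ring
      by_cases c2 : N₂ ≤ |⟪e, z⟫|
      · rw [p.χ0 _ c2]; ring
      by_cases c3 : ⟪u, z⟫ ≤ -R₁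
      · rw [p.Γl _ c3]; ring
      by_cases c4 : Q + R₂ ≤ ⟪u, z⟫
      · rw [p.Γr _ c4]; ring
      exfalso
      apply hcon
      rw [not_le, abs_lt] at c1 c2
      rw [not_le] at c3 c4
      exact ⟨⟨c3.le, c4.le⟩, ⟨c1.1.le, c1.2.le⟩, ⟨c2.1.le, c2.2.le⟩⟩
    unfold tb
    rw [h0, zero_smul]

theorem tb_curl (F : Fr u w e) (p : Prof δ ε Q ρ R₁ R₂ N N₂ κ c G χ β Γ) (z : E) :
    curl (tb u w e χ β Γ) z = (χ ⟪e, z⟫ * β ⟪w, z⟫ * deriv Γ ⟪u, z⟫) • e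
        - (deriv χ ⟪e, z⟫ * β ⟪w, z⟫ * Γ ⟪u, z⟫) • u := F.curl_prod p.sχ p.sβ p.sΓ z

theorem tb_inner (F : Fr u w e) (p : Prof δ ε Q ρ R₁ R₂ N N₂ κ c G χ β Γ) (z : E) :
    ⟪curl (tb u w e χ β Γ) z, e⟫ = χ ⟪e, z⟫ * β ⟪w, z⟫ * deriv Γ ⟪u, z⟫ := by
  rw [tb_curl F p, inner_sub_left, real_inner_smul_left, real_inner_smul_left, F.ue,
    real_inner_self_eq_norm_sq, F.ee]
  ring

theorem tb_normsq (F : Fr u w e) (p : Prof δ ε Q ρ R₁ R₂ N N₂ κ c G χ β Γ) (z : E) :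
    ‖curl (tb u w e χ β Γ) z‖ ^ 2 = (χ ⟪e, z⟫ * β ⟪w, z⟫ * deriv Γ ⟪u, z⟫) ^ 2 +
      (deriv χ ⟪e, z⟫ * β ⟪w, z⟫ * Γ ⟪u, z⟫) ^ 2 := by
  rw [tb_curl F p, F.norm_sq_comb']

theorem dist1 (F : Fr u w e) (z : E) : ‖z - ⟪e, z⟫ • e‖ ^ 2 = ⟪u, z⟫ ^ 2 + ⟪w, z⟫ ^ 2 := by
  rw [← F.norm_sq_comb]
  have h := F.decomp z
  have h1 : z - ⟪e, z⟫ • e = ⟪u, z⟫ • u + ⟪w, z⟫ • w := by
    rw [sub_eq_iff_eq_add]
    exact h
  rw [h1]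

theorem dist2 (F : Fr u w e) (z : E) :
    ‖z - Q • u - ⟪e, z⟫ • e‖ ^ 2 = (⟪u, z⟫ - Q) ^ 2 + ⟪w, z⟫ ^ 2 := by
  rw [← F.norm_sq_comb]
  have h := F.decomp z
  have h1 : z - ⟪e, z⟫ • e = ⟪u, z⟫ • u + ⟪w, z⟫ • w := by
    rw [sub_eq_iff_eq_add]
    exact h
  have h2 : z - Q • u - ⟪e, z⟫ • e = (⟪u, z⟫ - Q) • u + ⟪w, z⟫ • w := by
    rw [sub_smul, sub_right_comm, h1]
    abel
  rw [h2]

theorem real_ind (S : Set E) (hS : IsCompact S) (a : ℝ) :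
    Integrable (S.indicator fun _ : E => a) ∧ ∫ z, S.indicator (fun _ : E => a) z =
      a * volume.real S := by
  constructor
  · exact (integrable_indicator_iff hS.measurableSet).2
      (integrableOn_const hS.measure_lt_top.ne)
  · rw [integral_indicator_const _ hS.measurableSet, smul_eq_mul, mul_comm]

theorem tb_sq (F : Fr u w e) (p : Prof δ ε Q ρ R₁ R₂ N N₂ κ c G χ β Γ) (hδ : 0 < δ)
    (hδq : 2 * δ < Q) :
    sq (curl (tb u w e χ β Γ)) ≤ (1 + ε) * ((2 * ρ) * (2 * ρ) * (2 * N)) := by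
  have hR1 := p.R10
  have hN2 := p.N20
  have hR2 := p.R20
  have h1 := p.R1
  have h2 := p.R2
  have hκ0 : 0 ≤ κ := (abs_nonneg _).trans (p.gb2 Q (by simp [hR2.le]))
  have hc0 : 0 ≤ c := (abs_nonneg _).trans (p.dχb 0)
  have hG0 : 0 ≤ G := (abs_nonneg _).trans (p.Γb 0)
  obtain ⟨C1, V1⟩ := F.bx_isCompact ![-R₁, -R₁, -N₂] ![R₁, R₁, N₂]
  obtain ⟨C2, V2⟩ := F.bx_isCompact ![Q - R₂, -R₁, -N₂] ![Q + R₂, R₁, N₂]
  obtain ⟨C3, V3⟩ := F.bx_isCompact ![-R₁, -R₁, -N₂] ![Q + R₂, R₁, N₂]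
  set S1 := bx u w e ![-R₁, -R₁, -N₂] ![R₁, R₁, N₂] with hS1
  set S2 := bx u w e ![Q - R₂, -R₁, -N₂] ![Q + R₂, R₁, N₂] with hS2
  set S3 := bx u w e ![-R₁, -R₁, -N₂] ![Q + R₂, R₁, N₂] with hS3
  have hpt : ∀ z, ‖curl (tb u w e χ β Γ) z‖ ^ 2 ≤ S1.indicator (fun _ => (1 : ℝ)) z +
      S2.indicator (fun _ => κ ^ 2) z + S3.indicator (fun _ => (c * G) ^ 2) z := by
    intro z
    rw [tb_normsq F p]
    have i1 : 0 ≤ S1.indicator (fun _ => (1 : ℝ)) z := indicator_nonneg (fun _ _ => zero_le_one) z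
    have i2 : 0 ≤ S2.indicator (fun _ => κ ^ 2) z := indicator_nonneg (fun _ _ => sq_nonneg _) z
    have i3 : 0 ≤ S3.indicator (fun _ => (c * G) ^ 2) z :=
      indicator_nonneg (fun _ _ => sq_nonneg _) z
    apply add_le_add
    · by_cases c1 : R₁ ≤ |⟪w, z⟫|
      · rw [p.β0 _ c1, mul_zero, zero_mul, zero_pow (by norm_num)]
        exact add_nonneg i1 i2
      by_cases c2 : N₂ ≤ |⟪e, z⟫|
      · rw [p.χ0 _ c2, zero_mul, zero_mul, zero_pow (by norm_num)]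
        exact add_nonneg i1 i2
      rw [not_le, abs_lt] at c1 c2
      have hχβ : 0 ≤ χ ⟪e, z⟫ * β ⟪w, z⟫ ∧ χ ⟪e, z⟫ * β ⟪w, z⟫ ≤ 1 :=
        ⟨mul_nonneg (p.χ01 _).1 (p.β01 _).1, mul_le_one₀ (p.χ01 _).2 (p.β01 _).1 (p.β01 _).2⟩
      have hle : (χ ⟪e, z⟫ * β ⟪w, z⟫ * deriv Γ ⟪u, z⟫) ^ 2 ≤ (deriv Γ ⟪u, z⟫) ^ 2 := by
        rw [mul_pow]
        have : (χ ⟪e, z⟫ * β ⟪w, z⟫) ^ 2 ≤ 1 := pow_le_one₀ hχβ.1 hχβ.2
        exact mul_le_of_le_one_left (sq_nonneg _) this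
      by_cases c3 : |⟪u, z⟫| ≤ R₁
      · have hz : z ∈ S1 := ⟨abs_le.1 c3, ⟨c1.1.le, c1.2.le⟩, ⟨c2.1.le, c2.2.le⟩⟩
        rw [indicator_of_mem hz]
        have h3 : (deriv Γ ⟪u, z⟫) ^ 2 ≤ 1 := by
          rw [← sq_abs]
          exact pow_le_one₀ (abs_nonneg _) (p.gb1 _ c3)
        linarith
      by_cases c4 : |⟪u, z⟫ - Q| ≤ R₂
      · have c4' := abs_le.1 c4
        have hz : z ∈ S2 := ⟨⟨by show Q - R₂ ≤ ⟪u, z⟫; linarith [c4'.1],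
          by show ⟪u, z⟫ ≤ Q + R₂; linarith [c4'.2]⟩, ⟨c1.1.le, c1.2.le⟩, ⟨c2.1.le, c2.2.le⟩⟩
        rw [indicator_of_mem hz]
        have h3 : (deriv Γ ⟪u, z⟫) ^ 2 ≤ κ ^ 2 := by
          rw [← sq_abs (deriv Γ ⟪u, z⟫)]
          exact pow_le_pow_left₀ (abs_nonneg _) (p.gb2 _ c4) 2
        linarith
      · rw [not_le] at c3 c4
        rw [p.g0 _ c3.le c4.le, mul_zero, zero_pow (by norm_num)]
        exact add_nonneg i1 i2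
    · by_cases c1 : R₁ ≤ |⟪w, z⟫|
      · rw [p.β0 _ c1, mul_zero, zero_mul, zero_pow (by norm_num)]
        exact i3
      by_cases c2 : N₂ < |⟪e, z⟫|
      · rw [p.dχ0 _ c2, zero_mul, zero_mul, zero_pow (by norm_num)]
        exact i3
      by_cases c3 : ⟪u, z⟫ ≤ -R₁
      · rw [p.Γl _ c3, mul_zero, zero_pow (by norm_num)]
        exact i3
      by_cases c4 : Q + R₂ ≤ ⟪u, z⟫
      · rw [p.Γr _ c4, mul_zero, zero_pow (by norm_num)]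
        exact i3
      rw [not_le, abs_lt] at c1
      rw [not_lt, abs_le] at c2
      rw [not_le] at c3 c4
      have hz : z ∈ S3 := ⟨⟨c3.le, c4.le⟩, ⟨c1.1.le, c1.2.le⟩, ⟨c2.1, c2.2⟩⟩
      rw [indicator_of_mem hz, ← sq_abs]
      apply pow_le_pow_left₀ (abs_nonneg _)
      rw [abs_mul, abs_mul]
      calc |deriv χ ⟪e, z⟫| * |β ⟪w, z⟫| * |Γ ⟪u, z⟫| ≤ c * 1 * G := by
            have h3 : |β ⟪w, z⟫| ≤ 1 := by
              rw [abs_of_nonneg (p.β01 _).1]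
              exact (p.β01 _).2
            have h4 := p.dχb ⟪e, z⟫
            have h5 := p.Γb ⟪u, z⟫
            gcongr
        _ = c * G := by ring
  obtain ⟨I1, J1⟩ := real_ind S1 C1 1
  obtain ⟨I2, J2⟩ := real_ind S2 C2 (κ ^ 2)
  obtain ⟨I3, J3⟩ := real_ind S3 C3 ((c * G) ^ 2)
  have hint : sq (curl (tb u w e χ β Γ)) ≤ ∫ z, (S1.indicator (fun _ => (1 : ℝ)) z +
      S2.indicator (fun _ => κ ^ 2) z + S3.indicator (fun _ => (c * G) ^ 2) z) :=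
    integral_mono (integrable_norm_sq (tb_test F p).curl.memLp) ((I1.add I2).add I3) hpt
  have e1 : ∫ z, (S1.indicator (fun _ => (1 : ℝ)) z +
      S2.indicator (fun _ => κ ^ 2) z + S3.indicator (fun _ => (c * G) ^ 2) z) =
      1 * volume.real S1 + κ ^ 2 * volume.real S2 + (c * G) ^ 2 * volume.real S3 := by
    have I12 : Integrable (fun z => S1.indicator (fun _ => (1 : ℝ)) z +
      S2.indicator (fun _ => κ ^ 2) z) := I1.add I2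
    rw [← J1, ← J2, ← J3, ← integral_add I1 I2, ← integral_add I12 I3]
  rw [e1] at hint
  have v1 : volume.real S1 = (2 * R₁) * (2 * R₁) * (2 * N₂) := by
    rw [V1 (by
      intro i; fin_cases i
      · show -R₁ ≤ R₁; linarith
      · show -R₁ ≤ R₁; linarith
      · show -N₂ ≤ N₂; linarith)]
    show (R₁ - -R₁) * (R₁ - -R₁) * (N₂ - -N₂) = _
    ring
  have v2 : volume.real S2 = (2 * R₂) * (2 * R₁) * (2 * N₂) := by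
    rw [V2 (by
      intro i; fin_cases i
      · show Q - R₂ ≤ Q + R₂; linarith
      · show -R₁ ≤ R₁; linarith
      · show -N₂ ≤ N₂; linarith)]
    show (Q + R₂ - (Q - R₂)) * (R₁ - -R₁) * (N₂ - -N₂) = _
    ring
  have v3 : volume.real S3 = (Q + R₂ + R₁) * (2 * R₁) * (2 * N₂) := by
    rw [V3 (by
      intro i; fin_cases i
      · show -R₁ ≤ Q + R₂; linarith
      · show -R₁ ≤ R₁; linarith
      · show -N₂ ≤ N₂; linarith)]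
    show (Q + R₂ - -R₁) * (R₁ - -R₁) * (N₂ - -N₂) = _
    ring
  rw [v1, v2, v3, one_mul] at hint
  exact hint.trans p.en

end

theorem tube {e q : E} (he : ‖e‖ = 1) (hq : ⟪e, q⟫ = 0) {δ ε : ℝ} (hδ : 0 < δ)
    (hδq : 2 * δ < ‖q‖) (hε : 0 < ε) :
    ∃ (b r : E → E) (Z C D : Set E), Pot b r ∧ IsOpen Z ∧ 0 < volume.real Z ∧ IsCompact C ∧
      IsCompact D ∧ Z ⊆ C ∧ VanOff (C ∪ D) r ∧
      (∀ z ∈ Z, r z = e) ∧ (∀ z ∈ Z, ‖z - ⟪e, z⟫ • e‖ < δ) ∧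
      (∀ z ∈ D, ‖z - q - ⟪e, z⟫ • e‖ < δ) ∧
      (∀ z, ‖z - ⟪e, z⟫ • e‖ < δ → 0 ≤ ⟪r z, e⟫) ∧
      (∀ z, δ ≤ ‖z - ⟪e, z⟫ • e‖ → δ ≤ ‖z - q - ⟪e, z⟫ • e‖ → ⟪r z, e⟫ = 0) ∧
      (∫ z, ⟪r z, e⟫ = 0) ∧
      volume.real C ≤ (1 + ε) * volume.real Z ∧ sq r ≤ (1 + ε) * volume.real Z := by
  -- the frame
  obtain ⟨Q, hQ⟩ : ∃ Q : ℝ, Q = ‖q‖ := ⟨_, rfl⟩
  have hQδ : 2 * δ < Q := by rw [hQ]; exact hδq
  have hQ0 : 0 < Q := by linarith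
  obtain ⟨u, hu⟩ : ∃ u : E, u = Q⁻¹ • q := ⟨_, rfl⟩
  have hqu : q = Q • u := by rw [hu, smul_smul, mul_inv_cancel₀ hQ0.ne', one_smul]
  have hu1 : ‖u‖ = 1 := by
    rw [hu, norm_smul, Real.norm_of_nonneg (by positivity), ← hQ, inv_mul_cancel₀ hQ0.ne']
  have hue : ⟪u, e⟫ = 0 := by
    rw [hu, real_inner_smul_left, real_inner_comm, hq, mul_zero]
  obtain ⟨w, hw⟩ : ∃ w : E, w = cr e u := ⟨_, rfl⟩
  have F : Fr u w e := by rw [hw]; exact fr_of hu1 he hue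
  obtain ⟨ρ, R₁, R₂, N, N₂, κ, c, G, χ, β, Γ, p⟩ := exists_prof hδ hQδ hε
  have hR1 := p.R10
  have hN2 := p.N20
  have hR2 := p.R20
  have h1 := p.R1
  have h2 := p.R2
  have hρ0 := p.ρ0
  have hρR := p.ρR
  have hN0 := p.N0
  have hNN := p.NN
  have hVZ : volume.real (bxo u w e ![-ρ, -ρ, -N] ![ρ, ρ, N]) = (2 * ρ) * (2 * ρ) * (2 * N) := by
    rw [(F.bxo_isOpen _ _).2 (by
      intro i; fin_cases i
      · show -ρ ≤ ρ; linarith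
      · show -ρ ≤ ρ; linarith
      · show -N ≤ N; linarith)]
    show (ρ - -ρ) * (ρ - -ρ) * (N - -N) = _
    ring
  obtain ⟨C1, V1⟩ := F.bx_isCompact ![-R₁, -R₁, -N₂] ![R₁, R₁, N₂]
  obtain ⟨C2, V2⟩ := F.bx_isCompact ![-R₁, -R₁, N] ![Q + R₂, R₁, N₂]
  obtain ⟨C3, V3⟩ := F.bx_isCompact ![-R₁, -R₁, -N₂] ![Q + R₂, R₁, -N]
  obtain ⟨C4, -⟩ := F.bx_isCompact ![Q - R₂, -R₁, -N₂] ![Q + R₂, R₁, N₂]
  refine ⟨tb u w e χ β Γ, curl (tb u w e χ β Γ), bxo u w e ![-ρ, -ρ, -N] ![ρ, ρ, N],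
    bx u w e ![-R₁, -R₁, -N₂] ![R₁, R₁, N₂] ∪ (bx u w e ![-R₁, -R₁, N] ![Q + R₂, R₁, N₂] ∪
      bx u w e ![-R₁, -R₁, -N₂] ![Q + R₂, R₁, -N]),
    bx u w e ![Q - R₂, -R₁, -N₂] ![Q + R₂, R₁, N₂],
    (tb_test F p).pot, (F.bxo_isOpen _ _).1, ?_, C1.union (C2.union C3), C4, ?_, ?_, ?_, ?_, ?_,
    ?_, ?_, ?_, ?_, ?_⟩
  · rw [hVZ]
    positivity
  · rintro z ⟨⟨x1, x2⟩, ⟨y1, y2⟩, ⟨t1, t2⟩⟩
    replace x1 : -ρ < ⟪u, z⟫ := x1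
    replace x2 : ⟪u, z⟫ < ρ := x2
    replace y1 : -ρ < ⟪w, z⟫ := y1
    replace y2 : ⟪w, z⟫ < ρ := y2
    replace t1 : -N < ⟪e, z⟫ := t1
    replace t2 : ⟪e, z⟫ < N := t2
    refine Or.inl ⟨⟨?_, ?_⟩, ⟨?_, ?_⟩, ⟨?_, ?_⟩⟩
    · show -R₁ ≤ ⟪u, z⟫; linarith
    · show ⟪u, z⟫ ≤ R₁; linarith
    · show -R₁ ≤ ⟪w, z⟫; linarith
    · show ⟪w, z⟫ ≤ R₁; linarith
    · show -N₂ ≤ ⟪e, z⟫; linarith
    · show ⟪e, z⟫ ≤ N₂; linarith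
  · -- support
    refine Eventually.of_forall fun z hz => ?_
    rw [mem_union, not_or] at hz
    obtain ⟨hzC, hzD⟩ := hz
    rw [mem_union, mem_union, not_or, not_or] at hzC
    obtain ⟨z1, z2, z3⟩ := hzC
    rw [tb_curl F p]
    by_cases c1 : R₁ ≤ |⟪w, z⟫|
    · rw [p.β0 _ c1]; simp
    by_cases c2 : N₂ < |⟪e, z⟫|
    · rw [p.dχ0 _ c2, p.χ0 _ c2.le]; simp
    rw [not_le, abs_lt] at c1
    rw [not_lt] at c2
    have c2' := abs_le.1 c2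
    have e1 : χ ⟪e, z⟫ * β ⟪w, z⟫ * deriv Γ ⟪u, z⟫ = 0 := by
      rw [p.g0, mul_zero]
      · by_contra hcon
        rw [not_le] at hcon
        have h3 := abs_lt.1 hcon
        exact z1 ⟨⟨h3.1.le, h3.2.le⟩, ⟨c1.1.le, c1.2.le⟩, c2'⟩
      · by_contra hcon
        rw [not_le] at hcon
        have h3 := abs_lt.1 hcon
        exact hzD ⟨⟨by show Q - R₂ ≤ ⟪u, z⟫; linarith [h3.1],
          by show ⟪u, z⟫ ≤ Q + R₂; linarith [h3.2]⟩, ⟨c1.1.le, c1.2.le⟩, c2'⟩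
    have e2 : deriv χ ⟪e, z⟫ * β ⟪w, z⟫ * Γ ⟪u, z⟫ = 0 := by
      by_cases c3 : ⟪u, z⟫ ≤ -R₁
      · rw [p.Γl _ c3, mul_zero]
      by_cases c4 : Q + R₂ ≤ ⟪u, z⟫
      · rw [p.Γr _ c4, mul_zero]
      rw [not_le] at c3 c4
      have c5 : |⟪e, z⟫| < N := by
        by_contra hcon
        rw [not_lt] at hcon
        rcases le_abs.1 hcon with h | h
        · exact z2 ⟨⟨c3.le, c4.le⟩, ⟨c1.1.le, c1.2.le⟩, ⟨h, c2'.2⟩⟩
        · exact z3 ⟨⟨c3.le, c4.le⟩, ⟨c1.1.le, c1.2.le⟩,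
            ⟨c2'.1, by show ⟪e, z⟫ ≤ -N; linarith⟩⟩
      rw [p.dχ1 _ c5]
      ring
    rw [e1, e2, zero_smul, zero_smul, sub_zero]
  · -- value on Z
    rintro z ⟨⟨x1, x2⟩, ⟨y1, y2⟩, ⟨t1, t2⟩⟩
    have hx : |⟪u, z⟫| < ρ := abs_lt.2 ⟨x1, x2⟩
    have hy : |⟪w, z⟫| < ρ := abs_lt.2 ⟨y1, y2⟩
    have ht : |⟪e, z⟫| < N := abs_lt.2 ⟨t1, t2⟩
    rw [tb_curl F p, p.χ1 _ ht.le, p.β1 _ hy.le, p.g1 _ hx, p.dχ1 _ ht]
    simp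
  · rintro z ⟨⟨x1, x2⟩, ⟨y1, y2⟩, -⟩
    have hx : |⟪u, z⟫| < ρ := abs_lt.2 ⟨x1, x2⟩
    have hy : |⟪w, z⟫| < ρ := abs_lt.2 ⟨y1, y2⟩
    have h3 := dist1 F z
    have h4 : ⟪u, z⟫ ^ 2 ≤ (δ / 2) ^ 2 := by
      rw [← sq_abs]
      exact pow_le_pow_left₀ (abs_nonneg _) (by linarith) 2
    have h5 : ⟪w, z⟫ ^ 2 ≤ (δ / 2) ^ 2 := by
      rw [← sq_abs]
      exact pow_le_pow_left₀ (abs_nonneg _) (by linarith) 2
    refine lt_of_pow_lt_pow_left₀ 2 hδ.le ?_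
    rw [h3]
    nlinarith
  · rintro z ⟨⟨x1, x2⟩, ⟨y1, y2⟩, -⟩
    replace x1 : Q - R₂ ≤ ⟪u, z⟫ := x1
    replace x2 : ⟪u, z⟫ ≤ Q + R₂ := x2
    have hx : |⟪u, z⟫ - Q| ≤ R₂ := abs_le.2 ⟨by linarith, by linarith⟩
    have hy : |⟪w, z⟫| ≤ R₁ := abs_le.2 ⟨y1, y2⟩
    have h3 := dist2 (Q := Q) F z
    rw [← hqu] at h3
    have h4 : (⟪u, z⟫ - Q) ^ 2 ≤ (δ / 2) ^ 2 := by
      rw [← sq_abs]
      exact pow_le_pow_left₀ (abs_nonneg _) (by linarith) 2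
    have h5 : ⟪w, z⟫ ^ 2 ≤ (δ / 2) ^ 2 := by
      rw [← sq_abs]
      exact pow_le_pow_left₀ (abs_nonneg _) (by linarith) 2
    refine lt_of_pow_lt_pow_left₀ 2 hδ.le ?_
    rw [h3]
    nlinarith
  · intro z hz
    rw [tb_inner F p]
    have h3 := dist1 F z
    have h4 : |⟪u, z⟫| < δ := by
      have h5 : ‖z - ⟪e, z⟫ • e‖ ^ 2 < δ ^ 2 := pow_lt_pow_left₀ hz (norm_nonneg _) (by norm_num)
      rw [h3] at h5
      apply abs_lt_of_sq_lt_sq _ hδ.le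
      nlinarith [sq_nonneg ⟪w, z⟫]
    exact mul_nonneg (mul_nonneg (p.χ01 _).1 (p.β01 _).1) (p.gpos _ h4)
  · intro z hz1 hz2
    rw [tb_inner F p]
    by_cases c1 : R₁ ≤ |⟪w, z⟫|
    · rw [p.β0 _ c1]; ring
    rw [not_le] at c1
    have h3 := dist1 F z
    have h4 := dist2 (Q := Q) F z
    rw [← hqu] at h4
    have h5 : δ ^ 2 ≤ ⟪u, z⟫ ^ 2 + ⟪w, z⟫ ^ 2 := by
      rw [← h3]
      exact pow_le_pow_left₀ hδ.le hz1 2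
    have h6 : δ ^ 2 ≤ (⟪u, z⟫ - Q) ^ 2 + ⟪w, z⟫ ^ 2 := by
      rw [← h4]
      exact pow_le_pow_left₀ hδ.le hz2 2
    have h7 : ⟪w, z⟫ ^ 2 ≤ (δ / 2) ^ 2 := by
      rw [← sq_abs]
      exact pow_le_pow_left₀ (abs_nonneg _) (by linarith) 2
    rw [p.g0, mul_zero]
    · by_contra hcon
      rw [not_le] at hcon
      have h8 : ⟪u, z⟫ ^ 2 ≤ (δ / 2) ^ 2 := by
        rw [← sq_abs]
        exact pow_le_pow_left₀ (abs_nonneg _) (by linarith) 2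
      nlinarith
    · by_contra hcon
      rw [not_le] at hcon
      have h8 : (⟪u, z⟫ - Q) ^ 2 ≤ (δ / 2) ^ 2 := by
        rw [← sq_abs]
        exact pow_le_pow_left₀ (abs_nonneg _) (by linarith) 2
      nlinarith
  · have h3 := ip_curl_comm (tb_test F p) (B := fun _ => e) contDiff_const
    have h4 : ip (tb u w e χ β Γ) (curl fun _ : E => e) = 0 := by
      unfold ip
      have h0 : ∀ z : E, curl (fun _ : E => e) z = 0 := by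
        intro z
        apply ext3 <;> simp [curl, pd]
      simp [h0]
    rw [h4] at h3
    exact h3
  · rw [hVZ]
    refine le_trans ?_ p.vol
    have u1 := measureReal_union_le (μ := (volume : Measure E))
      (bx u w e ![-R₁, -R₁, -N₂] ![R₁, R₁, N₂])
      (bx u w e ![-R₁, -R₁, N] ![Q + R₂, R₁, N₂] ∪ bx u w e ![-R₁, -R₁, -N₂] ![Q + R₂, R₁, -N])
    have u2 := measureReal_union_le (μ := (volume : Measure E))
      (bx u w e ![-R₁, -R₁, N] ![Q + R₂, R₁, N₂]) (bx u w e ![-R₁, -R₁, -N₂] ![Q + R₂, R₁, -N])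
    rw [V1 (by
      intro i; fin_cases i
      · show -R₁ ≤ R₁; linarith
      · show -R₁ ≤ R₁; linarith
      · show -N₂ ≤ N₂; linarith)] at u1
    rw [V2 (by
      intro i; fin_cases i
      · show -R₁ ≤ Q + R₂; linarith
      · show -R₁ ≤ R₁; linarith
      · show N ≤ N₂; linarith), V3 (by
      intro i; fin_cases i
      · show -R₁ ≤ Q + R₂; linarith
      · show -R₁ ≤ R₁; linarith
      · show -N₂ ≤ -N; linarith)] at u2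
    have w1 : volume.real (bx u w e ![-R₁, -R₁, -N₂] ![R₁, R₁, N₂] ∪
        (bx u w e ![-R₁, -R₁, N] ![Q + R₂, R₁, N₂] ∪
        bx u w e ![-R₁, -R₁, -N₂] ![Q + R₂, R₁, -N])) ≤
        (R₁ - -R₁) * (R₁ - -R₁) * (N₂ - -N₂) + volume.real
        (bx u w e ![-R₁, -R₁, N] ![Q + R₂, R₁, N₂] ∪
        bx u w e ![-R₁, -R₁, -N₂] ![Q + R₂, R₁, -N]) := u1
    have w2 : volume.real
        (bx u w e ![-R₁, -R₁, N] ![Q + R₂, R₁, N₂] ∪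
        bx u w e ![-R₁, -R₁, -N₂] ![Q + R₂, R₁, -N]) ≤
        (Q + R₂ - -R₁) * (R₁ - -R₁) * (N₂ - N) + (Q + R₂ - -R₁) * (R₁ - -R₁) * (-N - -N₂) := u2
    nlinarith
  · rw [hVZ]
    exact tb_sq F p hδ hQδ

end Pool.Agent.Helper10.Curl
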