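import Pool.Agent.Helper38.Curl.Rep

/-!
MP_9cc3a3_an, packet C-TUBE: the tube field.
-/

set_option autoImplicit false

open MeasureTheory Set Filter Topology Metric
open scoped ContDiff RealInnerProductSpace
open Pool.Agent.Helper38.Curl

namespace Pool.Agent.Helper10.Curl

/-! ### orthonormal frames -/

structure Fr (u w e : E) : Prop where
  uu : ‖u‖ = 1
  ww : ‖w‖ = 1
  ee : ‖e‖ = 1
  uw : ⟪u, w⟫ = 0
  ue : ⟪u, e⟫ = 0
  we : ⟪w, e⟫ = 0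
  c1 : cr u w = e
  c2 : cr e w = -u

theorem fr_of {u e : E} (hu : ‖u‖ = 1) (he : ‖e‖ = 1) (h : ⟪u, e⟫ = 0) : Fr u (cr e u) e := by
  have hu2 : u 0 ^ 2 + u 1 ^ 2 + u 2 ^ 2 = 1 := by rw [← norm_sq_eq, hu]; norm_num
  have he2 : e 0 ^ 2 + e 1 ^ 2 + e 2 ^ 2 = 1 := by rw [← norm_sq_eq, he]; norm_num
  have h2 : u 0 * e 0 + u 1 * e 1 + u 2 * e 2 = 0 := by rw [← inner_eq, h]
  refine ⟨hu, ?_, he, ?_, h, ?_, ?_, ?_⟩
  · have h3 : ‖cr e u‖ ^ 2 = 1 := by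
      rw [norm_sq_eq]
      simp only [cr_apply_zero, cr_apply_one, cr_apply_two]
      have : (e 1 * u 2 - e 2 * u 1) ^ 2 + (e 2 * u 0 - e 0 * u 2) ^ 2 +
          (e 0 * u 1 - e 1 * u 0) ^ 2 = (u 0 ^ 2 + u 1 ^ 2 + u 2 ^ 2) *
          (e 0 ^ 2 + e 1 ^ 2 + e 2 ^ 2) - (u 0 * e 0 + u 1 * e 1 + u 2 * e 2) ^ 2 := by ring
      rw [this, hu2, he2, h2]
      norm_num
    have h4 : 0 ≤ ‖cr e u‖ := norm_nonneg _
    nlinarith
  · rw [inner_eq]
    simp only [cr_apply_zero, cr_apply_one, cr_apply_two]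
    ring
  · rw [inner_eq]
    simp only [cr_apply_zero, cr_apply_one, cr_apply_two]
    ring
  · apply ext3 <;> simp only [cr_apply_zero, cr_apply_one, cr_apply_two]
    · linear_combination e 0 * hu2 - u 0 * h2
    · linear_combination e 1 * hu2 - u 1 * h2
    · linear_combination e 2 * hu2 - u 2 * h2
  · apply ext3 <;> simp only [cr_apply_zero, cr_apply_one, cr_apply_two, PiLp.neg_apply]
    · linear_combination (-u 0) * he2 + e 0 * h2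
    · linear_combination (-u 1) * he2 + e 1 * h2
    · linear_combination (-u 2) * he2 + e 2 * h2

theorem Fr.exists_basis {u w e : E} (F : Fr u w e) :
    ∃ b : OrthonormalBasis (Fin 3) ℝ E, b 0 = u ∧ b 1 = w ∧ b 2 = e := by
  have ho : Orthonormal ℝ ((univ : Set (Fin 3)).domRestrict ![u, w, e]) := by
    constructor
    · rintro ⟨i, -⟩
      fin_cases i
      · exact F.uu
      · exact F.ww
      · exact F.ee
    · rintro ⟨i, hi⟩ ⟨j, hj⟩ hij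
      have hij' : i ≠ j := by
        rintro rfl
        exact hij rfl
      clear hij
      fin_cases i <;> fin_cases j <;> first
        | exact F.uw
        | exact F.ue
        | exact F.we
        | exact (real_inner_comm _ _).trans F.uw
        | exact (real_inner_comm _ _).trans F.ue
        | exact (real_inner_comm _ _).trans F.we
        | exact absurd rfl hij'
  obtain ⟨b, hb⟩ := ho.exists_orthonormalBasis_extension_of_card_eq (by simp)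
  exact ⟨b, hb 0 (mem_univ _), hb 1 (mem_univ _), hb 2 (mem_univ _)⟩

/-- the closed box in the coordinates of a frame -/
def bx (u w e : E) (a b : Fin 3 → ℝ) : Set E :=
  {z | (a 0 ≤ ⟪u, z⟫ ∧ ⟪u, z⟫ ≤ b 0) ∧ (a 1 ≤ ⟪w, z⟫ ∧ ⟪w, z⟫ ≤ b 1) ∧
    (a 2 ≤ ⟪e, z⟫ ∧ ⟪e, z⟫ ≤ b 2)}

def bxo (u w e : E) (a b : Fin 3 → ℝ) : Set E :=
  {z | (a 0 < ⟪u, z⟫ ∧ ⟪u, z⟫ < b 0) ∧ (a 1 < ⟪w, z⟫ ∧ ⟪w, z⟫ < b 1) ∧
    (a 2 < ⟪e, z⟫ ∧ ⟪e, z⟫ < b 2)}

theorem Fr.exists_co {u w e : E} (F : Fr u w e) : ∃ co : E ≃ₜ (Fin 3 → ℝ),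
    MeasurePreserving co volume volume ∧
    ∀ z, co z 0 = ⟪u, z⟫ ∧ co z 1 = ⟪w, z⟫ ∧ co z 2 = ⟪e, z⟫ := by
  obtain ⟨b, hb0, hb1, hb2⟩ := F.exists_basis
  refine ⟨b.repr.toHomeomorph.trans (PiLp.homeomorph 2 (fun _ : Fin 3 => ℝ)), ?_, ?_⟩
  · have h1 : MeasurePreserving b.repr volume volume := b.measurePreserving_repr
    have h2 := (PiLp.volume_preserving_ofLp (Fin 3))
    exact h2.comp h1
  · intro z
    refine ⟨?_, ?_, ?_⟩
    · rw [← hb0, ← b.repr_apply_apply]; rfl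
    · rw [← hb1, ← b.repr_apply_apply]; rfl
    · rw [← hb2, ← b.repr_apply_apply]; rfl

theorem Fr.bx_isCompact {u w e : E} (F : Fr u w e) (a b : Fin 3 → ℝ) :
    IsCompact (bx u w e a b) ∧
    ((∀ i, a i ≤ b i) → volume.real (bx u w e a b) = (b 0 - a 0) * (b 1 - a 1) * (b 2 - a 2)) := by
  obtain ⟨co, hmp, hco⟩ := F.exists_co
  have e1 : bx u w e a b = co ⁻¹' (Icc a b) := by
    ext z
    obtain ⟨h0, h1, h2⟩ := hco z
    simp only [bx, mem_ofPred_eq, mem_preimage, mem_Icc, Pi.le_def, Fin.forall_fin_succ,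
      Fin.succ_zero_eq_one, Fin.succ_one_eq_two, IsEmpty.forall_iff, and_true, h0, h1, h2]
    tauto
  constructor
  · rw [e1]
    exact co.isCompact_preimage.2 isCompact_Icc
  · intro hab
    rw [e1, measureReal_def, hmp.measure_preimage measurableSet_Icc.nullMeasurableSet,
      Real.volume_Icc_pi, Fin.prod_univ_three, ENNReal.toReal_mul, ENNReal.toReal_mul,
      ENNReal.toReal_ofReal (sub_nonneg.2 (hab 0)), ENNReal.toReal_ofReal (sub_nonneg.2 (hab 1)),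
      ENNReal.toReal_ofReal (sub_nonneg.2 (hab 2))]

theorem Fr.bxo_isOpen {u w e : E} (F : Fr u w e) (a b : Fin 3 → ℝ) :
    IsOpen (bxo u w e a b) ∧
    ((∀ i, a i ≤ b i) → volume.real (bxo u w e a b) = (b 0 - a 0) * (b 1 - a 1) * (b 2 - a 2)) := by
  obtain ⟨co, hmp, hco⟩ := F.exists_co
  have e1 : bxo u w e a b = co ⁻¹' (Set.pi univ fun i => Ioo (a i) (b i)) := by
    ext z
    obtain ⟨h0, h1, h2⟩ := hco z
    simp only [bxo, mem_ofPred_eq, mem_preimage, mem_univ_pi, mem_Ioo, Fin.forall_fin_succ,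
      Fin.succ_zero_eq_one, Fin.succ_one_eq_two, IsEmpty.forall_iff, and_true, h0, h1, h2]
  have ho : IsOpen (Set.pi univ fun i => Ioo (a i) (b i)) :=
    isOpen_set_pi finite_univ fun i _ => isOpen_Ioo
  constructor
  · rw [e1]
    exact ho.preimage co.continuous
  · intro hab
    rw [e1, measureReal_def, hmp.measure_preimage ho.measurableSet.nullMeasurableSet,
      Real.volume_pi_Ioo, Fin.prod_univ_three, ENNReal.toReal_mul, ENNReal.toReal_mul,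
      ENNReal.toReal_ofReal (sub_nonneg.2 (hab 0)), ENNReal.toReal_ofReal (sub_nonneg.2 (hab 1)),
      ENNReal.toReal_ofReal (sub_nonneg.2 (hab 2))]

/-- decomposition in the frame -/
theorem Fr.decomp {u w e : E} (F : Fr u w e) (z : E) :
    z = ⟪u, z⟫ • u + ⟪w, z⟫ • w + ⟪e, z⟫ • e := by
  obtain ⟨b, hb0, hb1, hb2⟩ := F.exists_basis
  have h := b.sum_repr z
  rw [Fin.sum_univ_three] at h
  simp only [b.repr_apply_apply, hb0, hb1, hb2] at h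
  exact h.symm

theorem Fr.norm_sq_comb {u w e : E} (F : Fr u w e) (x y : ℝ) : ‖x • u + y • w‖ ^ 2 = x ^ 2 + y ^ 2 := by
  rw [← real_inner_self_eq_norm_sq, inner_add_left, inner_add_right, inner_add_right]
  simp only [real_inner_smul_left, real_inner_smul_right, real_inner_self_eq_norm_sq, norm_smul,
    Real.norm_eq_abs, mul_pow, sq_abs, F.uu, F.ww, F.uw, real_inner_comm u w]
  ring

theorem Fr.norm_sq_comb' {u w e : E} (F : Fr u w e) (x y : ℝ) : ‖x • e - y • u‖ ^ 2 = x ^ 2 + y ^ 2 := by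
  rw [← real_inner_self_eq_norm_sq, inner_sub_left, inner_sub_right, inner_sub_right]
  simp only [real_inner_smul_left, real_inner_smul_right, real_inner_self_eq_norm_sq, norm_smul,
    Real.norm_eq_abs, mul_pow, sq_abs, F.uu, F.ee, F.ue, real_inner_comm u e]
  ring

/-! ### the field -/

theorem hasFDerivAt_co (v z : E) : HasFDerivAt (fun z : E => ⟪v, z⟫) (innerSL ℝ v) z :=
  (innerSL ℝ v).hasFDerivAt

theorem contDiff_co (v : E) : ContDiff ℝ ∞ (fun z : E => ⟪v, z⟫) :=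
  (innerSL ℝ v).contDiff

theorem Fr.curl_prod {u w e : E} (F : Fr u w e) {χ β Γ : ℝ → ℝ} (hχ : ContDiff ℝ ∞ χ)
    (hβ : ContDiff ℝ ∞ β) (hΓ : ContDiff ℝ ∞ Γ) (z : E) :
    curl (fun z => (χ ⟪e, z⟫ * β ⟪w, z⟫ * Γ ⟪u, z⟫) • w) z =
      (χ ⟪e, z⟫ * β ⟪w, z⟫ * deriv Γ ⟪u, z⟫) • e
        - (deriv χ ⟪e, z⟫ * β ⟪w, z⟫ * Γ ⟪u, z⟫) • u := by
  have hd : ∀ {φ : ℝ → ℝ}, ContDiff ℝ ∞ φ → ∀ v : E, HasFDerivAt (fun z : E => φ ⟪v, z⟫)
      (deriv φ ⟪v, z⟫ • innerSL ℝ v) z := by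
    intro φ hφ v
    have h1 : HasDerivAt φ (deriv φ ⟪v, z⟫) ⟪v, z⟫ :=
      ((hφ.differentiable (by simp)) _).hasDerivAt
    exact h1.comp_hasFDerivAt z (hasFDerivAt_co v z)
  have h1 := ((hd hχ e).fun_mul (hd hβ w)).fun_mul (hd hΓ u)
  have hg : gradient (fun z => χ ⟪e, z⟫ * β ⟪w, z⟫ * Γ ⟪u, z⟫) z =
      (χ ⟪e, z⟫ * β ⟪w, z⟫ * deriv Γ ⟪u, z⟫) • u + (χ ⟪e, z⟫ * deriv β ⟪w, z⟫ * Γ ⟪u, z⟫) • w
        + (deriv χ ⟪e, z⟫ * β ⟪w, z⟫ * Γ ⟪u, z⟫) • e := by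
    refine ext_inner_right ℝ fun v => ?_
    rw [inner_gradient]
    have h2 : fderiv ℝ (fun z => χ ⟪e, z⟫ * β ⟪w, z⟫ * Γ ⟪u, z⟫) z = _ := h1.fderiv
    rw [h2]
    simp only [add_apply, smul_apply, innerSL_apply_apply, inner_add_left,
      real_inner_smul_left, smul_eq_mul, smul_add]
    ring
  rw [curl_smul h1.differentiableAt (differentiableAt_const w), hg]
  have h0 : curl (fun _ : E => w) z = 0 := by
    apply ext3 <;> simp [curl, pd]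
  rw [h0, smul_zero, zero_add, cr_add_left, cr_add_left, cr_smul_left, cr_smul_left, cr_smul_left,
    F.c1, F.c2, cr_self, smul_zero, add_zero, smul_neg, sub_eq_add_neg]

/-! ### one dimensional profiles -/

theorem exists_bump {θ : ℝ} (hθ : 0 < θ) : ∃ (h H : ℝ → ℝ) (K : ℝ), 0 ≤ K ∧ ContDiff ℝ ∞ h ∧
    ContDiff ℝ ∞ H ∧ (∀ x, 0 ≤ h x ∧ h x ≤ 1) ∧ (∀ x, |x| ≤ 1 → h x = 1) ∧
    (∀ x, 1 + θ ≤ |x| → h x = 0) ∧ (∀ x, |deriv h x| ≤ K) ∧ (∀ x, |x| < 1 → deriv h x = 0) ∧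
    (∀ x, 1 + θ < |x| → deriv h x = 0) ∧
    (∀ x, deriv H x = h x) ∧ (∀ x, |H x| ≤ 1 + θ) ∧ (∀ x, 1 + θ ≤ x → H x = H (1 + θ)) ∧
    (∀ x, x ≤ -(1 + θ) → H x = H (-(1 + θ))) := by
  let f : ContDiffBump (0 : ℝ) := ⟨1, 1 + θ, by norm_num, by linarith⟩
  have hfc : ContDiff ℝ ∞ (f : ℝ → ℝ) := f.contDiff
  have hfcont : Continuous (f : ℝ → ℝ) := hfc.continuous
  have hf1 : ∀ x, |x| ≤ 1 → f x = 1 := by
    intro x hx
    apply f.one_of_mem_closedBall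
    rw [mem_closedBall_zero_iff, Real.norm_eq_abs]
    exact hx
  have hf0 : ∀ x, 1 + θ ≤ |x| → f x = 0 := by
    intro x hx
    apply f.zero_of_le_dist
    rw [dist_zero_right, Real.norm_eq_abs]
    exact hx
  have hdc : Continuous (deriv (f : ℝ → ℝ)) := hfc.continuous_deriv (by simp)
  obtain ⟨K, hK⟩ := (f.hasCompactSupport.deriv).exists_bound_of_continuous hdc
  have hKn : 0 ≤ K := (norm_nonneg _).trans (hK 0)
  set H : ℝ → ℝ := fun x => ∫ t in (0 : ℝ)..x, f t with hH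
  have hHd : ∀ x, HasDerivAt H (f x) x := fun x =>
    intervalIntegral.integral_hasDerivAt_right (hfcont.intervalIntegrable _ _)
      (hfcont.stronglyMeasurableAtFilter _ _) hfcont.continuousAt
  have hderiv : deriv H = f := funext fun x => (hHd x).deriv
  have hHr : ∀ x, 1 + θ ≤ x → H x = H (1 + θ) := by
    intro x hx
    have h1 : (∫ t in (0 : ℝ)..(1 + θ), f t) + ∫ t in (1 + θ)..x, f t = ∫ t in (0 : ℝ)..x, f t :=
      intervalIntegral.integral_add_adjacent_intervals (hfcont.intervalIntegrable _ _)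
        (hfcont.intervalIntegrable _ _)
    have h2 : ∫ t in (1 + θ)..x, f t = ∫ t in (1 + θ)..x, (0 : ℝ) := by
      apply intervalIntegral.integral_congr
      intro t ht
      rw [uIcc_of_le hx] at ht
      exact hf0 t (ht.1.trans (le_abs_self _))
    rw [h2, intervalIntegral.integral_zero, add_zero] at h1
    exact h1.symm
  have hHl : ∀ x, x ≤ -(1 + θ) → H x = H (-(1 + θ)) := by
    intro x hx
    have h1 : (∫ t in (0 : ℝ)..(-(1 + θ)), f t) + ∫ t in (-(1 + θ))..x, f t =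
        ∫ t in (0 : ℝ)..x, f t :=
      intervalIntegral.integral_add_adjacent_intervals (hfcont.intervalIntegrable _ _)
        (hfcont.intervalIntegrable _ _)
    have h2 : ∫ t in (-(1 + θ))..x, f t = ∫ t in (-(1 + θ))..x, (0 : ℝ) := by
      apply intervalIntegral.integral_congr
      intro t ht
      rw [uIcc_of_ge hx] at ht
      apply hf0 t
      have h3 := neg_abs_le t
      linarith [ht.2]
    rw [h2, intervalIntegral.integral_zero, add_zero] at h1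
    exact h1.symm
  have hHb0 : ∀ x, |x| ≤ 1 + θ → |H x| ≤ 1 + θ := by
    intro x hx
    have h1 : ‖∫ t in (0 : ℝ)..x, f t‖ ≤ 1 * |x - 0| := by
      apply intervalIntegral.norm_integral_le_of_norm_le_const
      intro t _
      rw [Real.norm_of_nonneg f.nonneg]
      exact f.le_one
    rw [sub_zero, one_mul] at h1
    exact h1.trans hx
  refine ⟨f, H, K, hKn, hfc, ?_, fun x => ⟨f.nonneg, f.le_one⟩, hf1, hf0, fun x => hK x, ?_, ?_,
    fun x => (hHd x).deriv, ?_, hHr, hHl⟩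
  · rw [contDiff_infty_iff_deriv]
    refine ⟨fun x => (hHd x).differentiableAt, ?_⟩
    rw [hderiv]
    exact hfc
  · intro x hx
    have h1 : (f : ℝ → ℝ) =ᶠ[𝓝 x] fun _ => 1 := by
      filter_upwards [(isOpen_lt continuous_abs continuous_const).mem_nhds hx] with y hy
      exact hf1 y (le_of_lt hy)
    rw [h1.deriv_eq]
    simp
  · intro x hx
    have h1 : (f : ℝ → ℝ) =ᶠ[𝓝 x] fun _ => 0 := by
      filter_upwards [(isOpen_lt continuous_const continuous_abs).mem_nhds hx] with y hy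
      exact hf0 y (le_of_lt hy)
    rw [h1.deriv_eq]
    simp
  · intro x
    rcases le_total (1 + θ) x with h | h
    · rw [hHr x h]
      exact hHb0 _ (by rw [abs_of_pos (by linarith)])
    rcases le_total x (-(1 + θ)) with h' | h'
    · rw [hHl x h']
      exact hHb0 _ (by rw [abs_neg, abs_of_pos (by linarith)])
    · exact hHb0 x (abs_le.2 ⟨h', h⟩)

/-- choice of the thickness -/
theorem exists_theta {κ ε ρ ρ' Q : ℝ} (hκ : κ ≤ ε / 4) (hε : 0 < ε) :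
    ∃ θ, 0 < θ ∧ θ ≤ 1 ∧ (1 + θ) ^ 3 * (1 + κ) ≤ 1 + ε / 2 ∧
      (1 + θ) ^ 3 + θ * (1 + θ) * (Q + ρ' * (1 + θ) + ρ * (1 + θ)) / (2 * ρ) ≤ 1 + ε := by
  have h1 : Tendsto (fun θ : ℝ => (1 + θ) ^ 3 * (1 + κ)) (𝓝[>] 0) (𝓝 ((1 + 0) ^ 3 * (1 + κ))) := by
    apply Tendsto.mono_left _ nhdsWithin_le_nhds
    exact Continuous.tendsto (by fun_prop) 0
  have h2 : Tendsto (fun θ : ℝ => (1 + θ) ^ 3 +
      θ * (1 + θ) * (Q + ρ' * (1 + θ) + ρ * (1 + θ)) / (2 * ρ)) (𝓝[>] 0)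
      (𝓝 ((1 + 0) ^ 3 + 0 * (1 + 0) * (Q + ρ' * (1 + 0) + ρ * (1 + 0)) / (2 * ρ))) := by
    apply Tendsto.mono_left _ nhdsWithin_le_nhds
    exact Continuous.tendsto (by fun_prop) 0
  have e1 : ∀ᶠ θ : ℝ in 𝓝[>] 0, (1 + θ) ^ 3 * (1 + κ) < 1 + ε / 2 :=
    h1.eventually_lt_const (by norm_num; linarith)
  have e2 : ∀ᶠ θ : ℝ in 𝓝[>] 0, (1 + θ) ^ 3 +
      θ * (1 + θ) * (Q + ρ' * (1 + θ) + ρ * (1 + θ)) / (2 * ρ) < 1 + ε :=
    h2.eventually_lt_const (by norm_num; linarith)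
  have e3 : ∀ᶠ θ : ℝ in 𝓝[>] 0, θ ∈ Ioc (0 : ℝ) 1 := Ioc_mem_nhdsGT one_pos
  obtain ⟨θ, h3, h4, h5⟩ := (e1.and (e2.and e3)).exists
  exact ⟨θ, h5.1, h5.2, h3.le, h4.le⟩

/-- the one dimensional data of the tube field -/
structure Prof (δ ε Q ρ R₁ R₂ N N₂ κ c G : ℝ) (χ β Γ : ℝ → ℝ) : Prop where
  ρ0 : 0 < ρ
  N0 : 0 < N
  ρR : ρ ≤ R₁
  NN : N ≤ N₂
  R1 : R₁ ≤ δ / 2
  R2 : R₂ ≤ δ / 2
  R20 : 0 < R₂
  sχ : ContDiff ℝ ∞ χ
  sβ : ContDiff ℝ ∞ β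
  sΓ : ContDiff ℝ ∞ Γ
  χ01 : ∀ t, 0 ≤ χ t ∧ χ t ≤ 1
  β01 : ∀ t, 0 ≤ β t ∧ β t ≤ 1
  χ1 : ∀ t, |t| ≤ N → χ t = 1
  β1 : ∀ t, |t| ≤ ρ → β t = 1
  χ0 : ∀ t, N₂ ≤ |t| → χ t = 0
  β0 : ∀ t, R₁ ≤ |t| → β t = 0
  dχ1 : ∀ t, |t| < N → deriv χ t = 0
  dχ0 : ∀ t, N₂ < |t| → deriv χ t = 0
  dχb : ∀ t, |deriv χ t| ≤ c
  Γb : ∀ x, |Γ x| ≤ G
  Γl : ∀ x, x ≤ -R₁ → Γ x = 0
  Γr : ∀ x, Q + R₂ ≤ x → Γ x = 0
  g1 : ∀ x, |x| < ρ → deriv Γ x = 1
  gpos : ∀ x, |x| < δ → 0 ≤ deriv Γ x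
  g0 : ∀ x, R₁ ≤ |x| → R₂ ≤ |x - Q| → deriv Γ x = 0
  gb1 : ∀ x, |x| ≤ R₁ → |deriv Γ x| ≤ 1
  gb2 : ∀ x, |x - Q| ≤ R₂ → |deriv Γ x| ≤ κ
  vol : (2 * R₁) * (2 * R₁) * (2 * N₂) + 2 * ((Q + R₂ + R₁) * (2 * R₁) * (N₂ - N)) ≤
    (1 + ε) * ((2 * ρ) * (2 * ρ) * (2 * N))
  en : (2 * R₁) * (2 * R₁) * (2 * N₂) + κ ^ 2 * ((2 * R₂) * (2 * R₁) * (2 * N₂)) +
    (c * G) ^ 2 * ((Q + R₂ + R₁) * (2 * R₁) * (2 * N₂)) ≤ (1 + ε) * ((2 * ρ) * (2 * ρ) * (2 * N))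

theorem exists_prof {δ ε Q : ℝ} (hδ : 0 < δ) (hδq : 2 * δ < Q) (hε : 0 < ε) :
    ∃ (ρ R₁ R₂ N N₂ κ c G : ℝ) (χ β Γ : ℝ → ℝ), Prof δ ε Q ρ R₁ R₂ N N₂ κ c G χ β Γ := by
  have hQ0 : 0 < Q := by linarith
  obtain ⟨ρ', hρ'⟩ : ∃ ρ' : ℝ, ρ' = δ / 4 := ⟨_, rfl⟩
  have hρ'0 : 0 < ρ' := by rw [hρ']; positivity
  obtain ⟨κ, hκ⟩ : ∃ κ : ℝ, κ = min 1 (ε / 4) := ⟨_, rfl⟩
  have hκ0 : 0 < κ := by rw [hκ]; exact lt_min one_pos (by positivity)
  have hκ1 : κ ≤ 1 := by rw [hκ]; exact min_le_left _ _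
  have hκε : κ ≤ ε / 4 := by rw [hκ]; exact min_le_right _ _
  obtain ⟨ρ, hρ⟩ : ∃ ρ : ℝ, ρ = κ * ρ' := ⟨_, rfl⟩
  have hρ0 : 0 < ρ := by rw [hρ]; positivity
  have hρρ' : ρ ≤ ρ' := by
    rw [hρ]
    exact mul_le_of_le_one_left hρ'0.le hκ1
  obtain ⟨θ, hθ0, hθ1, hθ2, hθ3⟩ := exists_theta (ρ := ρ) (ρ' := ρ') (Q := Q) hκε hε
  obtain ⟨h, H, K, hK0, hh, hH, h01, hone, hzero, hK, hd1, hd2, hHd, hHb, hHr, hHl⟩ :=
    exists_bump hθ0
  obtain ⟨P, hP⟩ : ∃ P : ℝ, P = 1 + θ := ⟨_, rfl⟩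
  rw [← hP] at hθ2 hθ3 hzero hd2 hHb hHr hHl
  have hP1 : 1 < P := by linarith
  have hP2 : P ≤ 2 := by linarith
  have hP0 : 0 < P := by linarith
  have hρ'P : ρ' * P ≤ δ / 2 := by
    calc ρ' * P ≤ ρ' * 2 := by gcongr
      _ = δ / 2 := by rw [hρ']; ring
  have hρP : ρ * P ≤ δ / 2 := by
    calc ρ * P ≤ ρ' * P := by gcongr
      _ ≤ δ / 2 := hρ'P
  have hρP0 : 0 < ρ * P := by positivity
  have hρ'P0 : 0 < ρ' * P := by positivity
  obtain ⟨X, hX⟩ : ∃ X : ℝ, X = Q + ρ' * P + ρ * P := ⟨_, rfl⟩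
  have hX0 : 0 < X := by rw [hX]; positivity
  obtain ⟨W, hW⟩ : ∃ W : ℝ, W = K ^ 2 * (2 * ρ * P) ^ 2 * X * (2 * ρ * P) * (2 * P) := ⟨_, rfl⟩
  have hW0 : 0 ≤ W := by rw [hW]; positivity
  obtain ⟨N, hN⟩ : ∃ N : ℝ, N = max 1 (W / (4 * ε * ρ ^ 2)) := ⟨_, rfl⟩
  have hN1 : 1 ≤ N := by rw [hN]; exact le_max_left _ _
  have hN0 : 0 < N := by linarith
  have hNW : W ≤ 4 * ε * ρ ^ 2 * N ^ 2 := by
    have h1 : W / (4 * ε * ρ ^ 2) ≤ N := by rw [hN]; exact le_max_right _ _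
    rw [div_le_iff₀ (by positivity)] at h1
    calc W ≤ N * (4 * ε * ρ ^ 2) := h1
      _ ≤ N ^ 2 * (4 * ε * ρ ^ 2) := by
          gcongr
          nlinarith
      _ = _ := by ring
  have hHa : ∀ y, HasDerivAt H (h y) y := fun y => by
    rw [← hHd y]
    exact ((hH.differentiable (by simp)) _).hasDerivAt
  have hχd : ∀ t, deriv (fun t => h (t / N)) t = N⁻¹ * deriv h (t / N) := by
    intro t
    have h1 : HasDerivAt (fun t : ℝ => t / N) (1 / N) t := (hasDerivAt_id t).div_const N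
    have h2 : HasDerivAt h (deriv h (t / N)) (t / N) :=
      ((hh.differentiable (by simp)) _).hasDerivAt
    have h3 : HasDerivAt (fun t => h (t / N)) (deriv h (t / N) * (1 / N)) t :=
      HasDerivAt.comp t h2 h1
    rw [h3.deriv]
    ring
  have hΓd : ∀ x, deriv (fun x => ρ * (H (x / ρ) - H ((x - Q) / ρ'))) x =
      h (x / ρ) - κ * h ((x - Q) / ρ') := by
    intro x
    have h1 : HasDerivAt (fun t : ℝ => t / ρ) (1 / ρ) x := (hasDerivAt_id x).div_const ρ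
    have h2 : HasDerivAt (fun t : ℝ => (t - Q) / ρ') (1 / ρ') x :=
      ((hasDerivAt_id x).sub_const Q).div_const ρ'
    have h3 : HasDerivAt (fun t : ℝ => H (t / ρ)) (h (x / ρ) * (1 / ρ)) x :=
      HasDerivAt.comp x (hHa (x / ρ)) h1
    have h4 : HasDerivAt (fun t : ℝ => H ((t - Q) / ρ')) (h ((x - Q) / ρ') * (1 / ρ')) x :=
      HasDerivAt.comp x (h₂ := H) (hHa ((x - Q) / ρ')) h2
    have h5 : HasDerivAt (fun x => ρ * (H (x / ρ) - H ((x - Q) / ρ')))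
        (ρ * (h (x / ρ) * (1 / ρ) - h ((x - Q) / ρ') * (1 / ρ'))) x :=
      (h3.sub h4).const_mul ρ
    rw [h5.deriv, hρ]
    field_simp
  have na : ∀ x, ρ * P ≤ |x| → h (x / ρ) = 0 := by
    intro y hy
    apply hzero
    rw [abs_div, abs_of_pos hρ0, le_div_iff₀ hρ0]
    linarith
  have na' : ∀ x, ρ' * P ≤ |x - Q| → h ((x - Q) / ρ') = 0 := by
    intro x hx
    apply hzero
    rw [abs_div, abs_of_pos hρ'0, le_div_iff₀ hρ'0]
    linarith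
  have far : ∀ x, |x| < δ → ρ' * P ≤ |x - Q| := by
    intro x hx
    have h1 := le_abs_self x
    have h2 := neg_abs_le (x - Q)
    linarith
  refine ⟨ρ, ρ * P, ρ' * P, N, N * P, κ, K / N, 2 * ρ * P, fun t => h (t / N), fun t => h (t / ρ),
    fun x => ρ * (H (x / ρ) - H ((x - Q) / ρ')), ?_⟩
  constructor
  · exact hρ0
  · exact hN0
  · nlinarith
  · nlinarith
  · exact hρP
  · exact hρ'P
  · exact hρ'P0
  · exact hh.comp (by fun_prop)
  · exact hh.comp (by fun_prop)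
  · exact contDiff_const.mul ((hH.comp (by fun_prop)).sub (hH.comp (by fun_prop)))
  · exact fun t => h01 _
  · exact fun t => h01 _
  · intro t ht
    apply hone
    rw [abs_div, abs_of_pos hN0]
    exact (div_le_one hN0).2 ht
  · intro t ht
    apply hone
    rw [abs_div, abs_of_pos hρ0]
    exact (div_le_one hρ0).2 ht
  · intro t ht
    apply hzero
    rw [abs_div, abs_of_pos hN0, le_div_iff₀ hN0]
    linarith
  · exact na
  · intro t ht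
    rw [hχd, hd1, mul_zero]
    rw [abs_div, abs_of_pos hN0]
    exact (div_lt_one hN0).2 ht
  · intro t ht
    rw [hχd, hd2, mul_zero]
    rw [abs_div, abs_of_pos hN0, lt_div_iff₀ hN0]
    linarith
  · intro t
    rw [hχd, abs_mul, abs_of_pos (by positivity)]
    calc N⁻¹ * |deriv h (t / N)| ≤ N⁻¹ * K := by gcongr; exact hK _
      _ = _ := by ring
  · intro x
    rw [abs_mul, abs_of_pos hρ0]
    have h1 : |H (x / ρ) - H ((x - Q) / ρ')| ≤ P + P :=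
      (abs_sub _ _).trans (add_le_add (hHb _) (hHb _))
    calc ρ * |H (x / ρ) - H ((x - Q) / ρ')| ≤ ρ * (P + P) := by gcongr
      _ = _ := by ring
  · intro x hx
    have h1 : x / ρ ≤ -P := by
      rw [div_le_iff₀ hρ0]
      linarith
    have h2 : (x - Q) / ρ' ≤ -P := by
      rw [div_le_iff₀ hρ'0]
      nlinarith
    rw [hHl _ h1, hHl _ h2, sub_self, mul_zero]
  · intro x hx
    have h1 : P ≤ x / ρ := by
      rw [le_div_iff₀ hρ0]
      nlinarith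
    have h2 : P ≤ (x - Q) / ρ' := by
      rw [le_div_iff₀ hρ'0]
      nlinarith
    rw [hHr _ h1, hHr _ h2, sub_self, mul_zero]
  · intro x hx
    rw [hΓd, na' x (far x (by nlinarith)), mul_zero, sub_zero]
    apply hone
    rw [abs_div, abs_of_pos hρ0]
    exact ((div_lt_one hρ0).2 hx).le
  · intro x hx
    rw [hΓd, na' x (far x hx), mul_zero, sub_zero]
    exact (h01 _).1
  · intro x h1 h2
    rw [hΓd, na x h1, na' x h2]
    ring
  · intro x hx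
    rw [hΓd, na' x (far x (by linarith)), mul_zero, sub_zero, abs_of_nonneg (h01 _).1]
    exact (h01 _).2
  · intro x hx
    have h1 : ρ * P ≤ |x| := by
      have h2 := neg_abs_le (x - Q)
      have h3 := le_abs_self x
      linarith
    rw [hΓd, na x h1, zero_sub, abs_neg, abs_mul, abs_of_pos hκ0, abs_of_nonneg (h01 _).1]
    calc κ * h ((x - Q) / ρ') ≤ κ * 1 := by gcongr; exact (h01 _).2
      _ = κ := mul_one _
  · -- volume
    have h1 : (2 * (ρ * P)) * (2 * (ρ * P)) * (2 * (N * P)) +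
        2 * ((Q + ρ' * P + ρ * P) * (2 * (ρ * P)) * (N * P - N)) =
        (P ^ 3 + θ * P * (Q + ρ' * P + ρ * P) / (2 * ρ)) * ((2 * ρ) * (2 * ρ) * (2 * N)) := by
      rw [hP]
      field_simp
      ring
    rw [h1]
    gcongr
  · -- energy
    rw [← hX]
    have h1 : (2 * (ρ * P)) * (2 * (ρ * P)) * (2 * (N * P)) +
        κ ^ 2 * ((2 * (ρ' * P)) * (2 * (ρ * P)) * (2 * (N * P))) =
        (P ^ 3 * (1 + κ)) * ((2 * ρ) * (2 * ρ) * (2 * N)) := by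
      rw [hρ]
      ring
    have h2 : (K / N * (2 * ρ * P)) ^ 2 * (X * (2 * (ρ * P)) * (2 * (N * P))) = W / N := by
      rw [hW]
      field_simp
    have h3 : W / N ≤ (ε / 2) * ((2 * ρ) * (2 * ρ) * (2 * N)) := by
      rw [div_le_iff₀ hN0]
      calc W ≤ 4 * ε * ρ ^ 2 * N ^ 2 := hNW
        _ = _ := by ring
    have h4 : (P ^ 3 * (1 + κ)) * ((2 * ρ) * (2 * ρ) * (2 * N)) ≤
        (1 + ε / 2) * ((2 * ρ) * (2 * ρ) * (2 * N)) := by gcongr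
    rw [h1, h2]
    calc _ ≤ (1 + ε / 2) * ((2 * ρ) * (2 * ρ) * (2 * N)) +
          (ε / 2) * ((2 * ρ) * (2 * ρ) * (2 * N)) := add_le_add h4 h3
      _ = _ := by ring

end Pool.Agent.Helper10.Curl
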